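import Pool.Agent.H.MP_df8ac3_lc.A

set_option autoImplicit false

namespace Pool.Agent.H.MP_3974fb_lc
open Finset Filter Topology Real Pool.Agent.H.MP_f44585_an Pool.Agent.H.MP_0447a2_lc

noncomputable def ww (B lam : ℝ) (r : ℕ) (u : ℝ) : ℝ :=
  ∏ i ∈ range r, (1 + cos (2 * π * (B ^ i * lam * u)))

theorem ww_nonneg (B lam : ℝ) (r : ℕ) (u : ℝ) : 0 ≤ ww B lam r u :=
  prod_nonneg fun i _ => by linarith [neg_one_le_cos (2 * π * (B ^ i * lam * u))]

@[fun_prop]
theorem ww_cont (B lam : ℝ) (r : ℕ) : Continuous (ww B lam r) := by unfold ww; fun_prop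

noncomputable def JJ (B lam p l : ℝ) (r : ℕ) (z : ℝ) : ℂ :=
  ∫ u in p..p + l, ee (z * lam * u) * ww B lam r u

theorem cos_ee (x : ℝ) : ((cos (2 * π * x) : ℝ) : ℂ) = (ee x + ee (-x)) / 2 := by
  rw [Complex.ofReal_cos, Complex.cos, ee, ee]
  congr 3 <;> push_cast <;> ring

variable {B lam p l : ℝ}

theorem JJ_succ (r : ℕ) (z : ℝ) : JJ B lam p l (r + 1) z =
    JJ B lam p l r z + (JJ B lam p l r (z + B ^ r) + JJ B lam p l r (z - B ^ r)) / 2 := by
  have hc : ∀ z : ℝ, IntervalIntegrable (fun u => ee (z * lam * u) * ww B lam r u)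
      MeasureTheory.volume p (p + l) := fun z => Continuous.intervalIntegrable (by fun_prop) _ _
  rw [JJ, JJ, JJ, JJ, ← intervalIntegral.integral_add (hc _) (hc _),
    ← intervalIntegral.integral_div, ← intervalIntegral.integral_add (hc _)
      (((hc _).add (hc _)).div_const _)]
  congr 1
  ext u
  rw [ww, prod_range_succ, ← ww, Complex.ofReal_mul, Complex.ofReal_add, cos_ee,
    show (z + B ^ r) * lam * u = z * lam * u + B ^ r * lam * u by ring,
    show (z - B ^ r) * lam * u = z * lam * u + -(B ^ r * lam * u) by ring, ee_add, ee_add]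
  push_cast
  ring

theorem JJ_neg (r : ℕ) (z : ℝ) : JJ B lam p l r (-z) = starRingEnd ℂ (JJ B lam p l r z) := by
  simp only [JJ, intervalIntegral, map_sub, ← integral_conj, map_mul, ee_conj, Complex.conj_ofReal,
    neg_mul]

theorem JJ_zero (r : ℕ) : JJ B lam p l r 0 = (∫ u in p..p + l, ww B lam r u : ℝ) := by
  simp [JJ, ee_zero, intervalIntegral.integral_ofReal]

theorem JJ_le (hl : 0 ≤ l) (r : ℕ) (z : ℝ) : ‖JJ B lam p l r z‖ ≤ ∫ u in p..p + l, ww B lam r u := by
  refine (intervalIntegral.norm_integral_le_integral_norm (by linarith)).trans (le_of_eq ?_)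
  simp only [norm_mul, ee_norm, one_mul, Complex.norm_real, Real.norm_of_nonneg (ww_nonneg _ _ _ _)]

theorem far0 (hB : 7 ≤ B) (h0 : 0 < lam) {A : ℝ} (hA : 0 < A) (r : ℕ) :
    ∀ z, A + B ^ r / 6 ≤ |z| → ‖JJ B lam p l r z‖ ≤ 2 ^ r / (A * lam) := by
  induction r with
  | zero =>
    intro z hz
    have h1 : A ≤ |z| := by simp only [pow_zero] at hz; linarith
    simp only [JJ, ww, prod_range_zero, Complex.ofReal_one, mul_one, pow_zero]
    refine (int_ee (mul_ne_zero (abs_pos.mp (hA.trans_le h1)) h0.ne') _ _).trans ?_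
    rw [abs_mul, abs_of_pos h0, one_div]
    gcongr
  | succ r ih =>
    intro z hz
    have h1 : 0 < B ^ r := by positivity
    have h2 : A + B ^ r / 6 + B ^ r ≤ |z| := by
      rw [pow_succ] at hz
      nlinarith
    have h3 := ih z (by linarith)
    have h4 := ih (z + B ^ r) (by
      have := abs_sub (z + B ^ r) (B ^ r)
      rw [add_sub_cancel_right, abs_of_pos h1] at this
      linarith)
    have h5 := ih (z - B ^ r) (by
      have := abs_add_le (z - B ^ r) (B ^ r)
      rw [sub_add_cancel, abs_of_pos h1] at this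
      linarith)
    rw [JJ_succ]
    refine (norm_add_le _ _).trans ?_
    have h6 := norm_add_le (JJ B lam p l r (z + B ^ r)) (JJ B lam p l r (z - B ^ r))
    rw [norm_div, Complex.norm_two, pow_succ, mul_div_right_comm]
    linarith

theorem far (hB : 7 ≤ B) (h0 : 0 < lam) (r : ℕ) {z : ℝ} (hz : B ^ r / 3 ≤ |z|) :
    ‖JJ B lam p l r z‖ ≤ 6 * (2 / B) ^ r / lam := by
  have h1 : 0 < B ^ r := by positivity
  refine (far0 hB h0 (A := B ^ r / 6) (by positivity) r z (by linarith)).trans (le_of_eq ?_)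
  rw [div_pow]
  field_simp

theorem lead (hB : 7 ≤ B) (h0 : 0 < lam) {r r' : ℕ} (hr : r ≤ r') {z : ℝ} (hz : |z| ≤ B ^ r / 2) :
    ‖JJ B lam p l r' z - JJ B lam p l r z‖ ≤ 9 / lam := by
  have h1 : ∀ j, ‖JJ B lam p l (r + j) z - JJ B lam p l r z‖ ≤
      9 / lam - 9 * (2 / B) ^ (r + j) / lam := by
    intro j
    induction j with
    | zero =>
      have : (2 / B) ^ r ≤ 1 := pow_le_one₀ (by positivity) (by rw [div_le_one] <;> linarith)
      rw [add_zero, sub_self, norm_zero, ← sub_div]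
      exact div_nonneg (by linarith) h0.le
    | succ j ih =>
      have e1 : B ^ r ≤ B ^ (r + j) := pow_le_pow_right₀ (by linarith) (by omega)
      have e2 : 0 < B ^ r := by positivity
      have e3 := abs_le.mp hz
      have h4 := far (p := p) (l := l) hB h0 (r + j) (z := z + B ^ (r + j))
        (le_trans (by linarith) (le_abs_self _))
      have h5 := far (p := p) (l := l) hB h0 (r + j) (z := z - B ^ (r + j))
        (le_trans (by linarith) (neg_le_abs _))
      have h6 := norm_add_le (JJ B lam p l (r + j) (z + B ^ (r + j)))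
        (JJ B lam p l (r + j) (z - B ^ (r + j)))
      rw [← add_assoc, JJ_succ, add_sub_right_comm]
      refine (norm_add_le _ _).trans ?_
      rw [norm_div, Complex.norm_two]
      have e4 : 2 / B ≤ 1 / 3 := by rw [div_le_div_iff₀] <;> linarith
      have e5 : 9 * (2 / B) ^ (r + j + 1) / lam ≤ 3 * (2 / B) ^ (r + j) / lam := by
        rw [pow_succ]
        gcongr ?_ / _
        nlinarith [pow_pos (by positivity : 0 < 2 / B) (r + j)]
      have e6 : 9 * (2 / B) ^ (r + j) / lam = 6 * (2 / B) ^ (r + j) / lam +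
        3 * (2 / B) ^ (r + j) / lam := by ring
      linarith
  obtain ⟨j, rfl⟩ := Nat.exists_eq_add_of_le hr
  exact (h1 j).trans (sub_le_self _ (by positivity))

theorem mass (hB : 7 ≤ B) (h0 : 0 < lam) (r : ℕ) :
    |(∫ u in p..p + l, ww B lam r u) - l| ≤ 9 / lam := by
  have := lead (p := p) (l := l) hB h0 (Nat.zero_le r) (z := 0) (by simp)
  rw [JJ_zero, JJ_zero, ← Complex.ofReal_sub, Complex.norm_real] at this
  simpa [ww] using this

noncomputable def Tr (B : ℝ) (ψ : ℝ → ℝ) : ℝ → ℝ :=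
  fun y => ψ (B * y) + (ψ (B * y + 1) + ψ (B * y - 1)) / 2

theorem Tr_mono (B : ℝ) : Monotone (Tr B) := fun f g h y => by
  have := h (B * y)
  have := h (B * y + 1)
  have := h (B * y - 1)
  unfold Tr
  linarith

noncomputable def bb (y : ℝ) : ℝ := max 0 (min 1 (3 - 6 * |y|))

noncomputable def dd (y : ℝ) : ℝ := if y = 0 then 1 else 0

theorem bb0 (y : ℝ) : 0 ≤ bb y := le_max_left _ _

theorem bb1 (y : ℝ) : bb y ≤ 1 := max_le zero_le_one (min_le_left _ _)

theorem bb2 {y : ℝ} (h : |y| ≤ 1 / 3) : bb y = 1 := by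
  rw [bb, min_eq_left (by linarith), max_eq_right zero_le_one]

theorem bb3 {y : ℝ} (h : 1 / 2 ≤ |y|) : bb y = 0 :=
  max_eq_left ((min_le_right _ _).trans (by linarith))

theorem dd0 (y : ℝ) : 0 ≤ dd y := by unfold dd; split_ifs <;> norm_num

theorem dd_le (y : ℝ) : dd y ≤ bb y := by
  unfold dd
  split_ifs with h
  · rw [h, bb2 (by simp)]
  · exact bb0 y

theorem Tr_bb (hB : 7 ≤ B) : Tr B bb ≤ bb := fun y => by
  unfold Tr
  have a1 := bb1 (B * y)
  have a2 := bb1 (B * y + 1)
  have a3 := bb1 (B * y - 1)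
  rcases le_or_gt |y| (1 / 3) with h | h
  · rw [bb2 h]
    rcases le_or_gt (1 / 2) |B * y| with e | e
    · rw [bb3 e]
      linarith
    · have := abs_lt.mp e
      rw [bb3 (y := B * y + 1) (le_trans (by linarith) (le_abs_self _)),
        bb3 (y := B * y - 1) (le_trans (by linarith) (neg_le_abs _))]
      linarith
  · have e : 2 ≤ |B * y| := by
      rw [abs_mul, abs_of_pos (by linarith : 0 < B)]
      nlinarith
    have e1 := abs_sub (B * y + 1) 1
    have e2 := abs_add_le (B * y - 1) 1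
    rw [add_sub_cancel_right, abs_one] at e1
    rw [sub_add_cancel, abs_one] at e2
    rw [bb3 (by linarith), bb3 (by linarith), bb3 (by linarith)]
    linarith [bb0 y]

noncomputable def Ps (B : ℝ) (j : ℕ) : ℝ → ℝ := (Tr B)^[j] bb

noncomputable def ph (B : ℝ) (j : ℕ) : ℝ → ℝ := (Tr B)^[j] dd

theorem Ps_succ (j : ℕ) : Ps B (j + 1) = Tr B (Ps B j) := Function.iterate_succ_apply' _ _ _

theorem ph_succ (j : ℕ) : ph B (j + 1) = Tr B (ph B j) := Function.iterate_succ_apply' _ _ _

theorem Ps_anti (hB : 7 ≤ B) : Antitone (Ps B) :=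
  antitone_nat_of_succ_le fun j => (Tr_mono B).iterate j (Tr_bb hB)

theorem ph_mono (hB : 7 ≤ B) : Monotone (ph B) :=
  monotone_nat_of_le_succ fun j => (Tr_mono B).iterate j fun y => by
    have a2 := dd0 (B * y + 1)
    have a3 := dd0 (B * y - 1)
    have : dd (B * y) = dd y := by simp [dd, (by linarith : B ≠ 0)]
    unfold Tr
    linarith

theorem ph_le (j : ℕ) : ph B j ≤ Ps B j := (Tr_mono B).iterate j dd_le

theorem ph0 (hB : 7 ≤ B) (j : ℕ) (y : ℝ) : 0 ≤ ph B j y := (dd0 y).trans (ph_mono hB j.zero_le y)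

theorem Ps1 (hB : 7 ≤ B) (j : ℕ) (y : ℝ) : Ps B j y ≤ bb y := Ps_anti hB j.zero_le y

theorem Ps_cont (j : ℕ) : Continuous (Ps B j) := by
  induction j with
  | zero => change Continuous bb; unfold bb; fun_prop
  | succ j ih => rw [Ps_succ]; unfold Tr; fun_prop

theorem ph_count (hB : 7 ≤ B) (j : ℕ) : {y | ph B j y ≠ 0}.Countable := by
  induction j with
  | zero => exact (Set.countable_singleton 0).mono fun y hy => by simpa [ph, dd] using hy
  | succ j ih =>
    have h0 : B ≠ 0 := by linarith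
    have h : ∀ c : ℝ, {y | ph B j (B * y + c) ≠ 0}.Countable := fun c =>
      ih.preimage_of_injOn (f := fun y => B * y + c) fun x _ y _ h =>
        mul_left_cancel₀ h0 (add_right_cancel h)
    refine (((h 0).union (h 1)).union (h (-1))).mono fun y hy => ?_
    by_contra hc
    simp only [Set.mem_union, Set.mem_setOf_eq, not_or, not_not, add_zero, ← sub_eq_add_neg] at hc
    exact hy (by simp [ph_succ, Tr, hc.1.1, hc.1.2, hc.2])

theorem core (hB : 7 ≤ B) (n : ℕ) : ∀ y, ∀ᶠ j in atTop, Ps B j y - ph B j y ≤ (1 / 2) ^ n := by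
  have anti : ∀ y c j, Ps B j y - ph B j y ≤ c → ∀ᶠ j in atTop, Ps B j y - ph B j y ≤ c :=
    fun y c j h => (eventually_ge_atTop j).mono fun i hi => by
      linarith [Ps_anti hB hi y, ph_mono hB hi y]
  have z : ∀ j y, 1 / 2 ≤ |y| → Ps B j y - ph B j y ≤ 0 := fun j y h => by
    linarith [Ps1 hB j y, bb3 h, ph0 hB j y]
  induction n with
  | zero => exact fun y => anti y _ 0 (by linarith [Ps1 hB 0 y, bb1 y, ph0 hB 0 y])
  | succ n ih =>
    have h1 : ∀ (i : ℕ) (y : ℝ), 1 / 2 ≤ |B ^ i * y| →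
        ∀ᶠ j in atTop, Ps B j y - ph B j y ≤ (1 / 2) ^ (n + 1) := by
      intro i
      induction i with
      | zero => exact fun y h => anti y _ 0 ((z 0 y (by simpa using h)).trans (by positivity))
      | succ i ih2 =>
        intro y h
        rcases le_or_gt (1 / 2) |B * y| with e | e
        · obtain ⟨j, j1, j2⟩ := ((ih (B * y + 1)).and (ih (B * y - 1))).exists
          refine anti y _ (j + 1) ?_
          have a1 := z j _ e
          rw [Ps_succ, ph_succ, pow_succ]
          unfold Tr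
          rcases le_total 0 (B * y) with c | c
          · have := z j (B * y + 1) (le_trans (by linarith) (le_abs_self _))
            linarith
          · have := z j (B * y - 1) (le_trans (by linarith) (neg_le_abs _))
            linarith
        · obtain ⟨j, j1⟩ := (ih2 (B * y) (by rwa [← mul_assoc, ← pow_succ])).exists
          refine anti y _ (j + 1) ?_
          have := abs_lt.mp e
          have a1 := z j (B * y + 1) (le_trans (by linarith) (le_abs_self _))
          have a2 := z j (B * y - 1) (le_trans (by linarith) (neg_le_abs _))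
          rw [Ps_succ, ph_succ]
          unfold Tr
          linarith
    intro y
    rcases eq_or_ne y 0 with rfl | hy
    · refine anti 0 _ 0 (le_trans ?_ (by positivity))
      simp [Ps, ph, dd, bb]
    · obtain ⟨i, hi⟩ := pow_unbounded_of_one_lt (1 / 2 / |y|) (by linarith : 1 < B)
      refine h1 i y ?_
      rw [div_lt_iff₀ (abs_pos.mpr hy)] at hi
      rw [abs_mul, abs_of_pos (by positivity : 0 < B ^ i)]
      exact hi.le

theorem iter (hB : 7 ≤ B) (h0 : 0 < lam) (hl : 0 ≤ l) (r j : ℕ) : ∀ y,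
    ‖JJ B lam p l (r + j) (y * B ^ (r + j)) - ph B j y * JJ B lam p l r 0‖ ≤
      (l + 9 / lam) * (Ps B j y - ph B j y) + 2 ^ j * (6 * (2 / B) ^ r / lam) := by
  induction j with
  | zero =>
    intro y
    have e0 : 0 ≤ 6 * (2 / B) ^ r / lam := by positivity
    change ‖JJ B lam p l r (y * B ^ r) - dd y * JJ B lam p l r 0‖ ≤
      (l + 9 / lam) * (bb y - dd y) + 2 ^ 0 * _
    rw [pow_zero, one_mul]
    have e1 := mul_nonneg (by positivity : 0 ≤ l + 9 / lam) (sub_nonneg.mpr (dd_le y))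
    rcases eq_or_ne y 0 with rfl | hy
    · simp only [dd, if_true, zero_mul, Complex.ofReal_one, one_mul, sub_self, norm_zero] at e1 ⊢
      linarith
    · simp only [dd, if_neg hy, Complex.ofReal_zero, zero_mul, sub_zero] at e1 ⊢
      rcases le_total |y| (1 / 3) with h | h
      · rw [bb2 h]
        linarith [JJ_le (B := B) (lam := lam) (p := p) hl r (y * B ^ r),
          (abs_le.mp (mass (p := p) (l := l) hB h0 r)).2]
      · refine (far hB h0 r ?_).trans (by linarith)
        rw [abs_mul, abs_of_pos (by positivity : 0 < B ^ r)]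
        nlinarith [pow_pos (by linarith : 0 < B) r]
  | succ j ih =>
    intro y
    have a1 := ih (B * y)
    have a2 := ih (B * y + 1)
    have a3 := ih (B * y - 1)
    rw [← add_assoc, JJ_succ, Ps_succ, ph_succ,
      show y * B ^ (r + j + 1) + B ^ (r + j) = (B * y + 1) * B ^ (r + j) by ring,
      show y * B ^ (r + j + 1) - B ^ (r + j) = (B * y - 1) * B ^ (r + j) by ring,
      show y * B ^ (r + j + 1) = B * y * B ^ (r + j) by ring]
    generalize JJ B lam p l (r + j) (B * y * B ^ (r + j)) = x1 at *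
    generalize JJ B lam p l (r + j) ((B * y + 1) * B ^ (r + j)) = x2 at *
    generalize JJ B lam p l (r + j) ((B * y - 1) * B ^ (r + j)) = x3 at *
    generalize JJ B lam p l r 0 = x at *
    have e : x1 + (x2 + x3) / 2 - Tr B (ph B j) y * x = (x1 - ph B j (B * y) * x) +
        ((x2 - ph B j (B * y + 1) * x) + (x3 - ph B j (B * y - 1) * x)) / 2 := by
      unfold Tr
      push_cast
      ring
    rw [e]
    refine (norm_add_le _ _).trans ?_
    have := norm_add_le (x2 - ph B j (B * y + 1) * x) (x3 - ph B j (B * y - 1) * x)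
    rw [norm_div, Complex.norm_two]
    unfold Tr
    rw [pow_succ]
    linarith

theorem err (hB : 7 ≤ B) (h0 : 0 < lam) {r j : ℕ} (h : j ≤ r) :
    2 ^ j * (6 * (2 / B) ^ r / lam) ≤ 6 / lam := by
  have e1 : (2 / B) ^ r ≤ (2 / B) ^ j :=
    pow_le_pow_of_le_one (by positivity) (by rw [div_le_one] <;> linarith) h
  have e2 : 2 ^ j * (2 / B) ^ j ≤ 1 := by
    rw [← mul_pow]
    exact pow_le_one₀ (by positivity) (by rw [← mul_div_assoc, div_le_one] <;> linarith)
  rw [← mul_div_assoc]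
  gcongr
  nlinarith [pow_pos (two_pos (α := ℝ)) j]

theorem L2 (hB : 7 ≤ B) (h0 : 0 < lam) (hl : 0 ≤ l) {r r' j : ℕ} (h : j ≤ r) (h' : r + j ≤ r')
    {y : ℝ} (hy : |y| ≤ 1 / 2) :
    ‖JJ B lam p l r' (y * B ^ (r + j))‖ ≤ (l + 9 / lam) * Ps B j y + 15 / lam := by
  have a1 := iter (p := p) hB h0 hl r j y
  have a2 := lead (p := p) (l := l) hB h0 h' (z := y * B ^ (r + j)) (by
    rw [abs_mul, abs_of_pos (by positivity : 0 < B ^ (r + j))]
    nlinarith [pow_pos (by linarith : 0 < B) (r + j)])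
  have a3 : ‖ph B j y * JJ B lam p l r 0‖ ≤ ph B j y * (l + 9 / lam) := by
    rw [norm_mul, Complex.norm_real, Real.norm_of_nonneg (ph0 hB j y)]
    refine mul_le_mul_of_nonneg_left ((JJ_le hl r 0).trans ?_) (ph0 hB j y)
    linarith [(abs_le.mp (mass (p := p) (l := l) hB h0 r)).2]
  have a4 := norm_le_norm_add_norm_sub' (JJ B lam p l r' (y * B ^ (r + j)))
    (JJ B lam p l (r + j) (y * B ^ (r + j)))
  have a5 := norm_le_norm_add_norm_sub' (JJ B lam p l (r + j) (y * B ^ (r + j)))
    (ph B j y * JJ B lam p l r 0)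
  have a6 := err hB h0 h
  have e : 15 / lam = 9 / lam + 6 / lam := by ring
  linarith

theorem L1 (hB : 7 ≤ B) : ∃ Φ : ℝ → ℝ, (∀ z, 0 ≤ Φ z ∧ Φ z ≤ 1) ∧ 1 / 2 ≤ Φ 1 ∧
    ∀ z ε, 0 < ε → ∃ W : ℕ, ∀ q r : ℕ, W ≤ q → q + W ≤ r → ∀ lam p l : ℝ, 0 < lam → 0 ≤ l →
      ‖JJ B lam p l r (z * B ^ q) - Φ z * l‖ ≤ ε * l + 33 / lam := by
  have hV : ∀ z : ℝ, ∃ V : ℕ, |z| ≤ B ^ V / 2 ∧ (z = 1 → V = 1) := fun z => by
    rcases eq_or_ne z 1 with rfl | h
    · exact ⟨1, by rw [abs_one, pow_one]; linarith, fun _ => rfl⟩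
    · obtain ⟨V, hV⟩ := pow_unbounded_of_one_lt (2 * |z|) (by linarith : 1 < B)
      exact ⟨V, by linarith, fun e => absurd e h⟩
  choose V V1 V2 using hV
  have bd : ∀ j y, ph B j y ≤ 1 := fun j y => (ph_le j y).trans ((Ps1 hB j y).trans (bb1 y))
  have bd' : ∀ y, BddAbove (Set.range fun j => ph B j y) := fun y =>
    ⟨1, by rintro _ ⟨j, rfl⟩; exact bd j y⟩
  have hp : 0 < B := by linarith
  refine ⟨fun z => ⨆ j, ph B j (z / B ^ V z), fun z => ⟨le_ciSup_of_le (bd' _) 0 (ph0 hB _ _),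
    ciSup_le fun j => bd j _⟩, le_ciSup_of_le (bd' _) 1 ?_, fun z ε hε => ?_⟩
  · have a1 := dd0 1
    have a2 := dd0 (1 + 1)
    have a3 : dd (1 - 1) = 1 := by simp [dd]
    rw [V2 1 rfl, pow_one]
    change _ ≤ Tr B dd (1 / B)
    unfold Tr
    rw [mul_one_div_cancel hp.ne', a3]
    generalize dd (1 + 1) = x at *
    linarith
  obtain ⟨n, hn⟩ := exists_pow_lt_of_lt_one (half_pos hε) (y := 1 / 2) (by norm_num)
  obtain ⟨j, j1⟩ := (core hB n (z / B ^ V z)).exists
  refine ⟨V z + 2 * j, fun q r h1 h2 lam p l h0 hl => ?_⟩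
  have e1 : z * B ^ q = z / B ^ V z * B ^ (q + V z - j + j) := by
    rw [show q + V z - j + j = V z + q by omega, pow_add]
    field_simp
  have a1 := iter (p := p) hB h0 hl (q + V z - j) j (z / B ^ V z)
  have a2 := lead (p := p) (l := l) hB h0 (r := q + V z - j + j) (r' := r) (by omega)
    (z := z * B ^ q) (by
      rw [show q + V z - j + j = V z + q by omega, pow_add, abs_mul,
        abs_of_pos (by positivity : 0 < B ^ q)]
      nlinarith [V1 z, pow_pos hp q])
  rw [← e1] at a1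
  have a6 := err hB h0 (r := q + V z - j) (j := j) (by omega)
  have a7 := mass (p := p) (l := l) hB h0 (q + V z - j)
  have b1 : ph B j (z / B ^ V z) ≤ ⨆ j, ph B j (z / B ^ V z) := le_ciSup (bd' _) j
  have b2 : ⨆ j, ph B j (z / B ^ V z) ≤ Ps B j (z / B ^ V z) := ciSup_le fun i =>
    (ph_mono hB (le_max_left i j) _).trans ((ph_le _ _).trans (Ps_anti hB (le_max_right i j) _))
  have b3 := ph0 hB j (z / B ^ V z)
  have b4 := bd j (z / B ^ V z)
  have b5 : (1 / 2 : ℝ) ^ n ≤ 1 := pow_le_one₀ (by norm_num) (by norm_num)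
  rw [JJ_zero] at a1
  beta_reduce
  generalize (∫ u in p..p + l, ww B lam (q + V z - j) u) = x at *
  generalize ⨆ j, ph B j (z / B ^ V z) = φ at *
  generalize ph B j (z / B ^ V z) = c at *
  generalize Ps B j (z / B ^ V z) = c' at *
  have a3 : ‖(c : ℂ) * x - φ * l‖ ≤ 9 / lam + ε / 2 * l := by
    rw [← Complex.ofReal_mul, ← Complex.ofReal_mul, ← Complex.ofReal_sub, Complex.norm_real,
      Real.norm_eq_abs, show c * x - φ * l = c * (x - l) - (φ - c) * l by ring]
    refine (abs_sub _ _).trans (add_le_add ?_ ?_)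
    · rw [abs_mul, abs_of_nonneg b3]
      nlinarith [abs_nonneg (x - l)]
    · rw [abs_of_nonneg (mul_nonneg (by linarith) hl)]
      gcongr
      linarith
  have a4 : (l + 9 / lam) * (c' - c) ≤ ε / 2 * l + 9 / lam := by
    have : 0 < 9 / lam := by positivity
    nlinarith [mul_le_mul_of_nonneg_left (j1.trans hn.le) hl]
  have e : 33 / lam = 9 / lam + 9 / lam + 9 / lam + 6 / lam := by ring
  linarith [norm_sub_le_norm_sub_add_norm_sub (JJ B lam p l r (z * B ^ q))
    (JJ B lam p l (q + V z - j + j) (z * B ^ q)) (φ * l), norm_sub_le_norm_sub_add_norm_sub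
    (JJ B lam p l (q + V z - j + j) (z * B ^ q)) (c * x) (φ * l)]

end Pool.Agent.H.MP_3974fb_lc
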