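import Pool.Agent.H.MP_3974fb_lc.A

set_option autoImplicit false

namespace Pool.Agent.H.MP_3974fb_lc
open Finset Filter Topology Real Pool.Agent.H.MP_f44585_an Pool.Agent.H.MP_0447a2_lc
  Pool.Agent.H.MP_df8ac3_lc

theorem key2 (Ψ : ℕ → ℝ → ℝ) (hc : ∀ R, Continuous (Ψ R)) (ha : Antitone Ψ) (h1 : ∀ R x, Ψ R x ≤ 1)
    {Z : Set ℝ} (hZ : Z.Countable) (h0 : ∀ x, x ∉ Z → ∀ ε, 0 < ε → ∃ R, Ψ R x < ε) {θ : ℝ}
    (hθ : Irrational θ) {ε : ℝ} (hε : 0 < ε) : ∃ (R : ℕ) (C : ℝ), ∀ (ψ : ℝ) (M : ℕ),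
      ∑ n ∈ range M, Ψ R (Int.fract (ψ + n * θ)) ≤ ε * M + C := by
  classical
  obtain ⟨q, hq⟩ := (hZ.insert 0).exists_eq_range (Set.insert_nonempty _ _)
  have hP : ∀ i : ℕ, ∃ P : ℕ, 0 < P ∧ 4 / (P : ℝ) ≤ ε / 4 * (1 / 2) ^ i := fun i => by
    obtain ⟨P, hP⟩ := exists_nat_gt (4 / (ε / 4 * (1 / 2) ^ i))
    have : (0 : ℝ) < P := lt_trans (by positivity) hP
    refine ⟨P, by exact_mod_cast this, ?_⟩
    rw [div_lt_iff₀ (by positivity)] at hP
    rw [div_le_iff₀ this]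
    linarith
  choose P P1 P2 using hP
  choose C hC using fun i => visits hθ (P1 i)
  obtain ⟨R, hR⟩ := (isCompact_Icc (a := (0 : ℝ)) (b := 1)).elim_directed_cover
    (fun R : ℕ => {φ | Ψ R φ < ε / 2} ∪ ⋃ i ∈ range R, Metric.ball (q i) (1 / (14 * P i)))
    (fun R => (isOpen_lt (hc R) continuous_const).union
      (isOpen_biUnion fun _ _ => Metric.isOpen_ball))
    (fun φ _ => by
      rw [Set.mem_iUnion]
      by_cases h : φ ∈ Z
      · obtain ⟨i, rfl⟩ : φ ∈ Set.range q := hq ▸ Set.mem_insert_of_mem _ h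
        refine ⟨i + 1, Or.inr (Set.mem_biUnion (self_mem_range_succ i) ?_)⟩
        have := P1 i
        exact Metric.mem_ball_self (by positivity)
      · exact (h0 φ h _ (half_pos hε)).imp fun R hR => Or.inl hR)
    (Monotone.directed_le fun R R' h => Set.union_subset_union
      (fun φ hφ => (ha h φ).trans_lt hφ)
      (Set.biUnion_subset_biUnion_left (range_subset_range.mpr h)))
  refine ⟨R, ∑ i ∈ range R, C i, fun ψ M => ?_⟩
  have h1 : ∀ n ∈ range M, Ψ R (Int.fract (ψ + n * θ)) ≤ ε / 2 + ∑ i ∈ range R,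
      if ∃ k : ℤ, |ψ - q i + n * θ - k| ≤ 1 / (14 * P i) then (1 : ℝ) else 0 := by
    intro n _
    rcases hR ⟨Int.fract_nonneg (ψ + n * θ), (Int.fract_lt_one _).le⟩ with h | h
    · exact (le_of_lt h).trans (le_add_of_nonneg_right (sum_nonneg fun _ _ => by positivity))
    · simp only [Set.mem_iUnion] at h
      obtain ⟨i, hi, h⟩ := h
      have hx : ∃ k : ℤ, |ψ - q i + n * θ - k| ≤ 1 / (14 * P i) := by
        refine ⟨⌊ψ + n * θ⌋, ?_⟩
        rw [Metric.mem_ball, Real.dist_eq, Int.fract] at h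
        refine le_of_eq_of_le ?_ h.le
        congr 1
        ring
      refine (h1 _ _).trans (le_add_of_nonneg_of_le (by positivity) (le_trans ?_
        (single_le_sum (f := fun i => if ∃ k : ℤ, |ψ - q i + n * θ - k| ≤ 1 / (14 * P i)
          then (1 : ℝ) else 0) (fun _ _ => by positivity) hi)))
      rw [if_pos hx]
  refine (sum_le_sum h1).trans ?_
  rw [sum_add_distrib, sum_comm]
  have h2 : ∑ i ∈ range R, ∑ n ∈ range M, (if ∃ k : ℤ, |ψ - q i + n * θ - k| ≤ 1 / (14 * P i)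
      then (1 : ℝ) else 0) ≤ ∑ i ∈ range R, (ε / 4 * M * (1 / 2) ^ i + C i) :=
    sum_le_sum fun i _ => by
      rw [sum_boole]
      refine (hC i _ M).trans (add_le_add_left ?_ _)
      calc 4 * (M : ℝ) / P i = 4 / P i * M := by ring
        _ ≤ ε / 4 * (1 / 2) ^ i * M := by gcongr; exact P2 i
        _ = _ := by ring
  rw [sum_add_distrib, ← mul_sum] at h2
  have h3 := sum_geometric_two_le R
  have h4 : 0 ≤ ε / 4 * M := by positivity
  simp only [sum_const, card_range, nsmul_eq_mul]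
  nlinarith

theorem rot (f : ℕ → ℝ) (M e : ℕ) : ∑ k ∈ range M, f ((e + k) % M) = ∑ k ∈ range M, f k := by
  induction e with
  | zero => exact sum_congr rfl fun k hk => by rw [zero_add, Nat.mod_eq_of_lt (mem_range.mp hk)]
  | succ e ih =>
    have h1 := sum_range_succ (fun k => f ((e + k) % M)) M
    have h2 := sum_range_succ' (fun k => f ((e + k) % M)) M
    simp only [Nat.add_mod_right, add_zero] at h1 h2
    rw [← ih]
    simp only [add_assoc e 1, add_comm 1]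
    linarith

theorem JJ_abs {B lam p l : ℝ} (r : ℕ) (z c : ℝ) :
    ‖JJ B lam p l r z - c‖ = ‖JJ B lam p l r |z| - c‖ := by
  rcases abs_choice z with h | h <;> rw [h]
  rw [JJ_neg, ← Complex.norm_conj, map_sub, Complex.conj_ofReal]

noncomputable def WW (τ : ℝ) (M : ℕ) (lam : ℝ) (r : ℕ) (u : ℝ) : ℝ :=
  ∑ k ∈ range M, ww (τ ^ M) (lam / τ ^ k) r u

theorem WW_nonneg (τ : ℝ) (M : ℕ) (lam : ℝ) (r : ℕ) (u : ℝ) : 0 ≤ WW τ M lam r u :=
  sum_nonneg fun _ _ => ww_nonneg _ _ _ _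

@[fun_prop]
theorem WW_cont (τ : ℝ) (M : ℕ) (lam : ℝ) (r : ℕ) : Continuous (WW τ M lam r) := by
  unfold WW; fun_prop

noncomputable def EE (τ : ℝ) (M : ℕ) (lam p l : ℝ) (r : ℕ) (y : ℝ) : ℂ :=
  ∫ u in p..p + l, ee (y * u) * WW τ M lam r u

variable {τ lam p l : ℝ} {M : ℕ}

theorem EE_eq (hτ : 1 < τ) (h0 : 0 < lam) (r : ℕ) (y : ℝ) : EE τ M lam p l r y =
    ∑ k ∈ range M, JJ (τ ^ M) (lam / τ ^ k) p l r (y / lam * τ ^ k) := by
  simp only [EE, WW, JJ, Complex.ofReal_sum, mul_sum]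
  rw [intervalIntegral.integral_finset_sum fun k _ =>
    Continuous.intervalIntegrable (by fun_prop) _ _]
  refine sum_congr rfl fun k _ => ?_
  rw [show y / lam * τ ^ k * (lam / τ ^ k) = y by field_simp]

theorem EE_le (hl : 0 ≤ l) (r : ℕ) (y : ℝ) :
    ‖EE τ M lam p l r y‖ ≤ ∫ u in p..p + l, WW τ M lam r u := by
  refine (intervalIntegral.norm_integral_le_integral_norm (by linarith)).trans (le_of_eq ?_)
  simp only [norm_mul, ee_norm, one_mul, Complex.norm_real,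
    Real.norm_of_nonneg (WW_nonneg _ _ _ _ _)]

theorem lamk (hτ : 1 < τ) (h0 : 0 < lam) {k : ℕ} (hk : k ∈ range M) {c : ℝ} (hc : 0 ≤ c) :
    c / (lam / τ ^ k) ≤ c * τ ^ M / lam := by
  rw [div_div_eq_mul_div]
  gcongr
  · exact hτ.le
  · exact (mem_range.mp hk).le

theorem massW (hτ : 1 < τ) (hB : 7 ≤ τ ^ M) (h0 : 0 < lam) (r : ℕ) :
    |(∫ u in p..p + l, WW τ M lam r u) - M * l| ≤ M * (9 * τ ^ M / lam) := by
  simp only [WW]
  rw [intervalIntegral.integral_finset_sum fun k _ =>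
    Continuous.intervalIntegrable (by fun_prop) _ _]
  have : (M : ℝ) * l = ∑ _ ∈ range M, l := by simp
  rw [this, ← sum_sub_distrib]
  refine (abs_sum_le_sum_abs _ _).trans ((sum_le_card_nsmul _ _ _ fun k hk =>
    (mass hB (by positivity) r).trans (lamk hτ h0 hk (by norm_num))).trans (by simp))

theorem P1 (hτ : 1 < τ) (hB : 7 ≤ τ ^ M) : ∃ Φ : ℝ → ℝ, (∀ x, 0 ≤ Φ x ∧ Φ x ≤ M) ∧ 1 / 2 ≤ Φ 1 ∧
    ∀ x ε, 0 < ε → ∃ (W : ℕ) (G : ℝ), ∀ (e r : ℕ) (lam p l y : ℝ), W ≤ e → e + W ≤ r → 0 < lam →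
      0 ≤ l → G ≤ l * lam → |y| = x * τ ^ e * lam → ‖EE τ M lam p l r y - Φ x * l‖ ≤ ε * l := by
  obtain ⟨Φ, f1, f2, f3⟩ := L1 hB
  have hM : 0 < M := Nat.pos_of_ne_zero fun h => by rw [h, pow_zero] at hB; linarith
  have hM' : (0 : ℝ) < M := by exact_mod_cast hM
  refine ⟨fun x => ∑ k ∈ range M, Φ (x * τ ^ k), fun x => ⟨sum_nonneg fun _ _ => (f1 _).1,
    (sum_le_card_nsmul _ _ 1 fun _ _ => (f1 _).2).trans (by simp)⟩, ?_, fun x ε hε => ?_⟩
  · refine le_trans ?_ (single_le_sum (f := fun k => Φ (1 * τ ^ k)) (fun _ _ => (f1 _).1)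
      (mem_range.mpr hM))
    simpa using f2
  choose W hW using fun k : ℕ => f3 (x * τ ^ k) (ε / M / 2) (by positivity)
  refine ⟨M * (range M).sup W + M + (range M).sup W, 33 * τ ^ M / (ε / M / 2),
    fun e r lam p l y h1 h2 h0 hl hG hy => ?_⟩
  beta_reduce
  rw [EE_eq hτ h0, ← rot (fun k => Φ (x * τ ^ k)) M e, Complex.ofReal_sum, sum_mul,
    ← sum_sub_distrib]
  refine (norm_sum_le_of_le _ (n := fun _ => ε / M * l) fun k hk => ?_).trans
    (le_of_eq (by simp; field_simp))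
  have k1 := mem_range.mp hk
  have w1 : W ((e + k) % M) ≤ (range M).sup W := le_sup (mem_range.mpr (Nat.mod_lt _ hM))
  have w2 : (range M).sup W ≤ (e + k) / M := (Nat.le_div_iff_mul_le hM).mpr (by
    rw [mul_comm]; omega)
  have w3 : (e + k) / M ≤ e + k := Nat.div_le_self _ _
  have e1 : |y / lam * τ ^ k| = x * τ ^ ((e + k) % M) * (τ ^ M) ^ ((e + k) / M) := by
    rw [abs_mul, abs_div, hy, abs_of_pos h0, abs_of_pos (by positivity), ← pow_mul, mul_assoc x (τ ^ (_ % _)),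
      ← pow_add, Nat.mod_add_div, pow_add]
    field_simp
  rw [← Complex.ofReal_mul, JJ_abs, e1, Complex.ofReal_mul]
  refine (hW _ _ r (w1.trans w2) (by omega) _ p l (by positivity) hl).trans ?_
  have e2 := lamk hτ h0 hk (c := 33) (by norm_num)
  have e3 : 33 * τ ^ M / lam ≤ ε / M / 2 * l := by
    rw [div_le_iff₀ (by positivity)] at hG
    rw [div_le_iff₀ h0]
    linarith
  linarith

theorem P2a {B : ℝ} (hB : 7 ≤ B) (h0 : 0 < lam) (hl : 0 ≤ l) {R : ℕ} {z : ℝ} (hz : B ^ (2 * R) ≤ z) :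
    ∀ᶠ r in atTop, ‖JJ B lam p l r z‖ ≤
      (l + 9 / lam) * Ps B R (exp (Int.fract (log z / log B) * log B) / B ^ 2) + 15 / lam := by
  have hp : 0 < B := by linarith
  have hl' := log_pos (by linarith : 1 < B)
  have hy : 0 < z := lt_of_lt_of_le (by positivity) hz
  have e1 : ((2 * R : ℕ) : ℝ) ≤ log z / log B := by
    rw [le_div_iff₀ hl', ← log_pow]
    exact log_le_log (by positivity) hz
  obtain ⟨s, hs⟩ : ∃ s : ℕ, ⌊log z / log B⌋ = s :=
    ⟨_, (Int.toNat_of_nonneg (Int.floor_nonneg.mpr ((Nat.cast_nonneg _).trans e1))).symm⟩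
  have e3 : 2 * R ≤ s := by
    have := Int.le_floor.mpr (show (((2 * R : ℕ) : ℤ) : ℝ) ≤ _ by exact_mod_cast e1)
    omega
  have e4 : exp (Int.fract (log z / log B) * log B) ≤ B := by
    conv_rhs => rw [← exp_log hp]
    exact exp_le_exp.mpr (mul_le_of_le_one_left hl'.le (Int.fract_lt_one _).le)
  have e5 : z = exp (Int.fract (log z / log B) * log B) / B ^ 2 * B ^ (s + 2 - R + R) := by
    rw [Int.fract, hs, sub_mul, div_mul_cancel₀ _ hl'.ne', exp_sub, exp_log hy,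
      Int.cast_natCast, exp_nat_mul, exp_log hp, show s + 2 - R + R = s + 2 by omega, pow_add]
    field_simp
  filter_upwards [eventually_ge_atTop (s + 2 - R + R)] with r hr
  have := L2 (p := p) hB h0 hl (r := s + 2 - R) (j := R) (by omega) hr
    (y := exp (Int.fract (log z / log B) * log B) / B ^ 2) (by
      rw [abs_of_pos (by positivity), div_le_iff₀ (by positivity)]
      nlinarith)
  rwa [← e5] at this

def HA (α τ : ℝ) (M h0 : ℕ) (ξ : ℝ) : Prop :=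
  ∀ h : ℕ, 1 ≤ h → ∀ ε : ℝ, 0 < ε → ∃ (W : ℕ) (C G : ℝ), ∀ (e n0 N : ℕ) (p l : ℝ), 0 ≤ l →
    G ≤ l * (h0 * τ ^ e) → τ ^ (e + W) ≤ |α| ^ n0 → ∀ᶠ r in atTop,
      ‖∑ n ∈ range N, ee (h * (ξ * α ^ n)) * EE τ M (h0 * τ ^ e) p l r (h * α ^ (n0 + n))‖ ≤
        (ε * N + C) * l

theorem HA_irr {α : ℝ} (hτ : 1 < τ) (hB : 7 ≤ τ ^ M) (hα : 1 < |α|)
    (hθ : Irrational (log |α| / log (τ ^ M))) (ξ : ℝ) : HA α τ M 1 ξ := by
  intro h hh ε hε
  have hM : 0 < M := Nat.pos_of_ne_zero fun h => by rw [h, pow_zero] at hB; linarith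
  have hM' : (0 : ℝ) < M := by exact_mod_cast hM
  have hh' : (1 : ℝ) ≤ h := by exact_mod_cast hh
  have hl' := log_pos (by linarith : 1 < τ ^ M)
  obtain ⟨R, C, hC⟩ := key2 (fun R φ => Ps (τ ^ M) R (exp (φ * log (τ ^ M)) / (τ ^ M) ^ 2))
    (fun R => (Ps_cont R).comp (by fun_prop)) (fun R R' h φ => Ps_anti hB h _)
    (fun R x => (Ps1 hB R _).trans (bb1 _))
    (Z := ⋃ j, {φ | ph (τ ^ M) j (exp (φ * log (τ ^ M)) / (τ ^ M) ^ 2) ≠ 0})
    (Set.countable_iUnion fun j => (ph_count hB j).preimage_of_injOn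
      (f := fun φ => exp (φ * log (τ ^ M)) / (τ ^ M) ^ 2) fun x _ y _ h =>
        mul_right_cancel₀ hl'.ne' (exp_injective ((div_left_inj' (by positivity)).mp h)))
    (fun x hx δ hδ => by
      simp only [Set.mem_iUnion, Set.mem_setOf_eq, not_exists, not_not] at hx
      obtain ⟨n, hn⟩ := exists_pow_lt_of_lt_one hδ (y := 1 / 2) (by norm_num)
      obtain ⟨j, hj⟩ := (core hB n (exp (x * log (τ ^ M)) / (τ ^ M) ^ 2)).exists
      exact ⟨j, by linarith [hx j]⟩) hθ (ε := ε / M / 4) (by positivity)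
  refine ⟨M * (2 * R), M * (2 * |C|), max (9 * τ ^ M) (15 * τ ^ M / (ε / M / 2)),
    fun e n0 N p l hl hG h1 => ?_⟩
  rw [Nat.cast_one, one_mul] at hG ⊢
  have h0 : 0 < τ ^ e := by positivity
  have a0 : 0 < |α| := by linarith
  filter_upwards [(eventually_all_finset (range N ×ˢ range M)).mpr fun x _ =>
    P2a (p := p) (lam := τ ^ e / τ ^ x.2) hB (by positivity) hl (R := R)
      (z := h * |α| ^ n0 / τ ^ e * τ ^ x.2 * |α| ^ x.1) (by
        have e1 : (τ ^ M) ^ (2 * R) ≤ h * |α| ^ n0 / τ ^ e := by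
          rw [le_div_iff₀ h0, ← pow_mul, ← pow_add, add_comm]
          exact h1.trans (le_mul_of_one_le_left (by positivity) hh')
        rw [mul_assoc]
        exact e1.trans (le_mul_of_one_le_right (by positivity) (one_le_mul_of_one_le_of_one_le
          (one_le_pow₀ hτ.le) (one_le_pow₀ hα.le))))] with r hr
  have g1 : 9 * τ ^ M / τ ^ e ≤ l := by
    rw [div_le_iff₀ h0]
    exact (le_max_left _ _).trans hG
  have g2 : 15 * τ ^ M / τ ^ e ≤ ε / M / 2 * l := by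
    have := (le_max_right _ _).trans hG
    rw [div_le_iff₀ (by positivity)] at this
    rw [div_le_iff₀ h0]
    linarith
  refine (norm_sum_le_of_le _ (n := fun n : ℕ => ∑ k ∈ range M, (2 * l * Ps (τ ^ M) R (exp (Int.fract
    (log (h * |α| ^ n0 / τ ^ e * τ ^ k) / log (τ ^ M) + n * (log |α| / log (τ ^ M))) * log (τ ^ M)) /
      (τ ^ M) ^ 2) + ε / M / 2 * l)) fun n hn => ?_).trans ?_
  · rw [norm_mul, ee_norm, one_mul, EE_eq hτ h0]
    refine norm_sum_le_of_le _ fun k hk => ?_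
    have e1 := hr (n, k) (mem_product.mpr ⟨hn, hk⟩)
    have e2 := JJ_abs (B := τ ^ M) (lam := τ ^ e / τ ^ k) (p := p) (l := l) r
      (h * α ^ (n0 + n) / τ ^ e * τ ^ k) 0
    have e3 : |h * α ^ (n0 + n) / τ ^ e * τ ^ k| = h * |α| ^ n0 / τ ^ e * τ ^ k * |α| ^ n := by
      rw [abs_mul, abs_div, abs_mul, abs_pow, Nat.abs_cast, abs_of_pos h0,
        abs_of_pos (by positivity : 0 < τ ^ k), pow_add]
      ring
    rw [Complex.ofReal_zero, sub_zero, sub_zero, e3] at e2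
    rw [log_mul (by positivity) (by positivity), log_pow |α| n, add_div, mul_div_assoc (n : ℝ)] at e1
    rw [e2]
    refine e1.trans (add_le_add (mul_le_mul_of_nonneg_right ?_ ((ph0 hB R _).trans (ph_le R _)))
      ((lamk hτ h0 hk (by norm_num)).trans g2))
    linarith [lamk hτ h0 hk (c := 9) (by norm_num)]
  · rw [sum_comm]
    refine (sum_le_card_nsmul _ _ (2 * l * (ε / M / 4 * N + |C|) + N * (ε / M / 2 * l))
      fun k _ => ?_).trans (le_of_eq ?_)
    · rw [sum_add_distrib, ← mul_sum, sum_const, card_range, nsmul_eq_mul]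
      gcongr
      exact (hC _ N).trans (by linarith [le_abs_self C])
    · rw [card_range, nsmul_eq_mul]
      field_simp
      ring

theorem ws_le {u : ℕ → ℝ} (hu : UD u) {h : ℕ} (hh : 1 ≤ h) {ε : ℝ} (hε : 0 < ε) :
    ∃ C : ℝ, 0 ≤ C ∧ ∀ N : ℕ, ‖∑ n ∈ range N, ee (h * u n)‖ ≤ ε * N + C := by
  obtain ⟨N0, hN⟩ := Metric.tendsto_atTop.mp (ws_of_ud hu h hh) ε hε
  refine ⟨N0, Nat.cast_nonneg _, fun N => ?_⟩
  rcases le_or_gt N N0 with h | h
  · refine (norm_sum_le_of_le _ fun n _ => (ee_norm _).le).trans ?_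
    rw [sum_const, card_range, nsmul_eq_mul, mul_one]
    exact le_add_of_nonneg_of_le (by positivity) (by exact_mod_cast h)
  · have := hN N h.le
    rw [dist_zero_right, norm_div, Complex.norm_natCast,
      div_lt_iff₀ (by exact_mod_cast (Nat.zero_le _).trans_lt h)] at this
    exact le_add_of_le_of_nonneg this.le (Nat.cast_nonneg _)

theorem pw (hτ : 1 < τ) {α : ℝ} {i : ℕ} (hi : |α| = τ ^ i) {e W n0 : ℕ}
    (h1 : τ ^ (e + W) ≤ |α| ^ n0) (n : ℕ) : ∃ e', W ≤ e' ∧ |α ^ (n0 + n)| = τ ^ e' * τ ^ e := by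
  rw [hi, ← pow_mul, pow_le_pow_iff_right₀ hτ] at h1
  refine ⟨i * (n0 + n) - e, by rw [mul_add]; omega, ?_⟩
  rw [abs_pow, hi, ← pow_mul, ← pow_add, Nat.sub_add_cancel (by rw [mul_add]; omega)]

theorem HA_rat {α ξ : ℝ} (hτ : 1 < τ) (hB : 7 ≤ τ ^ M) {i h0 : ℕ} (hi : |α| = τ ^ i) (hh0 : 1 ≤ h0)
    (hu : UD fun n => ξ * α ^ n) : HA α τ M h0 ξ := by
  intro h hh ε hε
  have h0' : (0 : ℝ) < h0 := by exact_mod_cast hh0
  obtain ⟨Φ, f1, -, f3⟩ := P1 hτ hB
  obtain ⟨W, G, hW⟩ := f3 (h / h0) (ε / 2) (by positivity)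
  obtain ⟨C, C0, hC⟩ := ws_le hu hh (ε := ε / 2 / (M + 1)) (by positivity)
  refine ⟨W, (M + 1) * C, G, fun e n0 N p l hl hG h1 => ?_⟩
  choose e' e1 e2 using pw hτ hi h1
  filter_upwards [(eventually_all_finset (range N)).mpr fun n _ => eventually_ge_atTop (e' n + W)]
    with r hr
  have a1 : ‖∑ n ∈ range N, ee (h * (ξ * α ^ n)) * (EE τ M (h0 * τ ^ e) p l r (h * α ^ (n0 + n)) -
      Φ (h / h0) * l)‖ ≤ N * (ε / 2 * l) := by
    refine (norm_sum_le_of_le _ (n := fun _ => ε / 2 * l) fun n hn => ?_).trans (by simp)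
    rw [norm_mul, ee_norm, one_mul]
    refine hW (e' n) r _ p l _ (e1 n) (hr n hn) (by positivity) hl hG ?_
    rw [abs_mul, e2, Nat.abs_cast]
    field_simp
  have a2 : ‖(∑ n ∈ range N, ee (h * (ξ * α ^ n))) * (Φ (h / h0) * l)‖ ≤
      (ε / 2 / (M + 1) * N + C) * ((M + 1) * l) := by
    rw [norm_mul, ← Complex.ofReal_mul, Complex.norm_real,
      Real.norm_of_nonneg (mul_nonneg (f1 _).1 hl)]
    refine mul_le_mul (hC N) ?_ (mul_nonneg (f1 _).1 hl) (by positivity)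
    gcongr
    linarith [(f1 (h / h0)).2]
  simp only [mul_sub, sum_sub_distrib] at a1
  rw [← sum_mul] at a1
  refine (norm_le_norm_add_norm_sub' _ _).trans ((add_le_add a2 a1).trans (le_of_eq ?_))
  field_simp
  ring

end Pool.Agent.H.MP_3974fb_lc
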