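import Pool.Agent.H.MP_3974fb_lc.B

set_option autoImplicit false

namespace Pool.Agent.H.MP_3974fb_lc
open Finset Filter Topology Real Pool.Agent.H.MP_f44585_an Pool.Agent.H.MP_0447a2_lc

theorem shift (f : ℕ → ℂ) {K : ℝ} (hf : ∀ n, ‖f n‖ ≤ K) {a b : ℕ} (h : a ≤ b) (N : ℕ) :
    ‖∑ n ∈ range N, f (a + n) - ∑ n ∈ range N, f (b + n)‖ ≤ 2 * ((b - a : ℕ) * K) := by
  obtain ⟨c, rfl⟩ := Nat.exists_eq_add_of_le h
  have h1 := sum_range_add (fun n => f (a + n)) N c
  have h2 := sum_range_add (fun n => f (a + n)) c N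
  rw [add_comm c N, h1] at h2
  simp only [← add_assoc] at h2
  have h3 : ∀ g : ℕ → ℕ, ‖∑ n ∈ range c, f (g n)‖ ≤ c * K := fun g =>
    (norm_sum_le_of_le _ fun n _ => hf _).trans (by simp)
  rw [show ∑ n ∈ range N, f (a + n) - ∑ n ∈ range N, f (a + c + n) =
    ∑ n ∈ range c, f (a + n) - ∑ n ∈ range c, f (a + N + n) by linear_combination h2,
    Nat.add_sub_cancel_left]
  linarith [norm_sub_le (∑ n ∈ range c, f (a + n)) (∑ n ∈ range c, f (a + N + n)),
    h3 fun n => a + n, h3 fun n => a + N + n]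

theorem intSS (τ : ℝ) (M : ℕ) (lam p l ζ ξ s s' : ℝ) (r h : ℕ) :
    ∫ t in p..p + l, SS ζ h s s' t * WW τ M lam r (t - ξ) = ∑ n ∈ range (io ζ s' - io ζ s),
      ee (h * (ξ * ζ ^ (io ζ s + n))) * EE τ M lam (p - ξ) l r (h * ζ ^ (io ζ s + n)) := by
  simp only [SS, sum_Ico_eq_sum_range, sum_mul]
  rw [intervalIntegral.integral_finset_sum fun k _ =>
    Continuous.intervalIntegrable (by fun_prop) _ _]
  refine sum_congr rfl fun n _ => ?_
  rw [EE, ← intervalIntegral.integral_const_mul, show p - ξ + l = p + l - ξ by ring,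
    ← intervalIntegral.integral_comp_sub_right]
  congr 1
  ext t
  rw [← mul_assoc (ee _), ← ee_add]
  congr 2
  ring

def Blk (α β : ℝ) (h0 : ℕ) (ω : ℂ) (c : ℝ) : Prop :=
  ∀ (H : ℕ) (ε D0 : ℝ), 0 < ε → ∃ D, D0 ≤ D ∧ ∀ s p : ℝ, 0 ≤ s → ∃ w : ℝ → ℝ, Continuous w ∧
    (∀ u, 0 ≤ w u) ∧ 0 < ∫ t in p..p + exp (-s), w t ∧
    (∀ h, 1 ≤ h → h ≤ H → ‖∫ t in p..p + exp (-s), SS α h s (s + D) t * w t‖ ≤
      ε * D * ∫ t in p..p + exp (-s), w t) ∧
    c * D * ∫ t in p..p + exp (-s), w t ≤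
      (ω * ∫ t in p..p + exp (-s), SS β h0 s (s + D) t * w t).re

theorem io_add {β : ℝ} (h : 1 < |β|) {s : ℝ} (hs : 0 ≤ s) (N : ℕ) :
    io β (s + N * log |β|) = io β s + N := by
  have := log_pos h
  rw [io, io, add_div, mul_div_cancel_right₀ _ this.ne', Nat.ceil_add_natCast (by positivity)]

theorem blk {α β τ ξ c0 : ℝ} {M j h0 c1 : ℕ} {ω : ℂ} (hα : 1 < |α|) (hβ : 1 < |β|) (hτ : 1 < τ)
    (hB : 7 ≤ τ ^ M) (hj : |β| = τ ^ j) (hh0 : 1 ≤ h0) (hω : ‖ω‖ = 1) (hc : 0 < c0)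
    (hfr : ∃ᶠ N : ℕ in atTop, c0 * N ≤ (ω * ∑ m ∈ range N, ee (h0 * (ξ * β ^ m))).re)
    (hA : HA α τ M h0 ξ) (hs : ∀ σ, 0 ≤ σ → ∃ (n0 m0 : ℕ) (ξ' : ℝ), ξ' * α ^ n0 = ξ ∧
      ξ' * β ^ m0 = ξ ∧ io α σ ≤ n0 ∧ n0 ≤ io α σ + c1 ∧ io β σ ≤ m0 ∧ m0 ≤ io β σ + c1) :
    Blk α β h0 ω (c0 / (8 * M * log |β|)) := by
  intro H ε D0 hε
  have la := log_pos hα
  have lb := log_pos hβ
  have lt := log_pos hτ
  have hM : 0 < M := Nat.pos_of_ne_zero fun h => by rw [h, pow_zero] at hB; linarith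
  have hM' : (1 : ℝ) ≤ M := by exact_mod_cast hM
  have h0' : (1 : ℝ) ≤ h0 := by exact_mod_cast hh0
  obtain ⟨Φ, -, f2, f3⟩ := P1 hτ hB
  obtain ⟨W0, G0, hW0⟩ := f3 1 (c0 / 8) (by positivity)
  choose W1 C1 G1 hW1 using fun h : ℕ => hA (h + 1) (by omega) (ε * log |α| / 4) (by positivity)
  obtain ⟨W, w0, w1⟩ : ∃ W, W0 ≤ W ∧ ∀ h, h < H → W1 h ≤ W :=
    ⟨max W0 ((range H).sup W1), le_max_left _ _, fun h hh =>
      (le_sup (mem_range.mpr hh)).trans (le_max_right _ _)⟩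
  obtain ⟨G, g0, g1, g2, g3⟩ : ∃ G, 0 ≤ G ∧ G0 ≤ G ∧ 18 * τ ^ M ≤ G ∧ ∀ h, h < H →
      G1 h ≤ G ∧ C1 h ≤ G := by
    obtain ⟨G, hG⟩ := ((range H).finite_toSet.image fun h => max (G1 h) (C1 h)).bddAbove
    refine ⟨max (max G0 (18 * τ ^ M)) G, le_max_of_le_left (le_max_of_le_right (by positivity)),
      le_max_of_le_left (le_max_left _ _), le_max_of_le_left (le_max_right _ _), fun h hh => ?_⟩
    exact max_le_iff.mp (le_max_of_le_right (hG ⟨h, mem_range.mpr hh, rfl⟩))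
  obtain ⟨g, hg⟩ : ∃ g, g = G + (W + 1) * log τ := ⟨_, rfl⟩
  have g4 : 0 ≤ g := by rw [hg]; positivity
  have tN : Tendsto (fun N : ℕ => N * log |β|) atTop atTop :=
    tendsto_natCast_atTop_atTop.atTop_mul_const lb
  obtain ⟨N, n1, n2, n3, n4⟩ := (hfr.and_eventually ((tN.eventually_ge_atTop D0).and
    ((tN.eventually_ge_atTop ((ε * log |α| / 2 + 2 * (g / log |α| + 1 + c1) + 2 * G) / (ε / 2))).and
      (tendsto_natCast_atTop_atTop.eventually_ge_atTop
        (32 * M * (g / log |β| + 1 + c1) / c0))))).exists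
  refine ⟨N * log |β|, n2, fun s p s0 => ?_⟩
  obtain ⟨n0, m0, ξ', x1, x2, x3, x4, x5, x6⟩ := hs (s + g) (by positivity)
  have t1 : |τ| = τ := abs_of_pos (by linarith)
  have t2 : 1 < |τ| := by linarith
  have e1 := io1 t2 (s + G)
  have e2 : τ ^ (io τ (s + G) + W) ≤ exp (s + g) := by
    have a1 := io_lt t2 (s := s + G) (by positivity)
    have a2 := pow_eq t2 (io τ (s + G) + W)
    rw [t1] at a1 a2
    rw [div_add_one lt.ne', lt_div_iff₀ lt] at a1
    rw [a2, exp_le_exp, hg]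
    push_cast
    linarith
  rw [t1] at e1
  generalize io τ (s + G) = e at e1 e2
  have l0 := exp_pos (-s)
  have e3 : G ≤ exp (-s) * (h0 * τ ^ e) := by
    calc G ≤ exp (-s) * (1 * exp (s + G)) := by
          rw [one_mul, ← exp_add]
          linarith [add_one_le_exp (-s + (s + G))]
      _ ≤ _ := by gcongr
  have e4 : ∀ {ζ : ℝ} {n : ℕ}, 1 < |ζ| → io ζ (s + g) ≤ n → τ ^ (e + W) ≤ |ζ| ^ n := fun h1 h2 =>
    e2.trans ((io1 h1 _).trans (pow_le_pow_right₀ h1.le h2))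
  have e5 : ∀ {ζ : ℝ} {n : ℕ}, 1 < |ζ| → n ≤ io ζ (s + g) + c1 →
      ((n - io ζ s : ℕ) : ℝ) ≤ g / log |ζ| + 1 + c1 := fun {ζ n} h1 h2 => by
    have a1 := io_len h1 s0 (le_add_of_nonneg_right g4)
    rw [Nat.card_Ico, add_sub_cancel_left] at a1
    have a2 : ((n - io ζ s : ℕ) : ℝ) ≤ ((io ζ (s + g) - io ζ s + c1 : ℕ) : ℝ) := by
      exact_mod_cast (by omega : n - io ζ s ≤ io ζ (s + g) - io ζ s + c1)
    rw [Nat.cast_add] at a2
    linarith
  choose e' e6 e7 using pw hτ hj (e4 hβ x5)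
  obtain ⟨r, r1, r2⟩ := (((eventually_all_finset (range H)).mpr fun h hh => hW1 h e n0
    (io α (s + N * log |β|) - io α s) (p - ξ') _ l0.le ((g3 h (mem_range.mp hh)).1.trans e3)
    ((pow_le_pow_right₀ hτ.le (by have := w1 h (mem_range.mp hh); omega)).trans (e4 hα x3))).and
    ((eventually_all_finset (range N)).mpr fun n _ => eventually_ge_atTop (e' n + W))).exists
  have p0 : 0 < h0 * τ ^ e := by positivity
  have k0 : ∫ t in p..p + exp (-s), WW τ M (h0 * τ ^ e) r (t - ξ') =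
      ∫ t in p - ξ'..p - ξ' + exp (-s), WW τ M (h0 * τ ^ e) r t := by
    rw [intervalIntegral.integral_comp_sub_right, show p - ξ' + exp (-s) = p + exp (-s) - ξ' by ring]
  have k1 := abs_le.mp (massW (p := p - ξ') (l := exp (-s)) hτ hB p0 r)
  have k2 : M * (9 * τ ^ M / (h0 * τ ^ e)) ≤ M * (exp (-s) / 2) := by
    gcongr _ * ?_
    rw [div_le_iff₀ p0]
    linarith
  have k3 := fun (h : ℕ) (ζ : ℝ) {a b : ℕ} (hab : a ≤ b) (N : ℕ) => shift
    (fun n => ee (h * (ξ' * ζ ^ n)) * EE τ M (h0 * τ ^ e) (p - ξ') (exp (-s)) r (h * ζ ^ n))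
    (fun n => by rw [norm_mul, ee_norm, one_mul]; exact EE_le l0.le r _) hab N
  refine ⟨fun t => WW τ M (h0 * τ ^ e) r (t - ξ'), by fun_prop, fun u => WW_nonneg _ _ _ _ _, ?_⟩
  simp only [intSS]
  rw [k0]
  generalize (∫ t in p - ξ'..p - ξ' + exp (-s), WW τ M (h0 * τ ^ e) r t) = K at k1 k3
  have k4 : exp (-s) ≤ 2 * K := by nlinarith
  have k5 : K ≤ 2 * M * exp (-s) := by nlinarith
  have k6 : 0 < K := by linarith
  refine ⟨k6, fun h h1 h2 => ?_, ?_⟩
  · obtain ⟨h, rfl⟩ : ∃ h', h = h' + 1 := ⟨h - 1, by omega⟩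
    have a1 := r1 h (mem_range.mpr h2)
    have a2 := k3 (h + 1) α ((io_mono hα (le_add_of_nonneg_right g4)).trans x3)
      (io α (s + N * log |β|) - io α s)
    have a3 := io_len hα s0 (s' := s + N * log |β|) (le_add_of_nonneg_right (by positivity))
    rw [Nat.card_Ico, add_sub_cancel_left] at a3
    simp only [pow_add α n0, ← mul_assoc ξ', x1] at a1 a2
    refine (norm_le_norm_add_norm_sub' _ _).trans ((add_le_add a1 a2).trans ?_)
    have a4 := e5 hα x4
    rw [div_le_iff₀ (by positivity)] at n3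
    calc _ ≤ (ε * log |α| / 4 * (N * log |β| / log |α| + 1) + G) * (2 * K) +
          2 * ((g / log |α| + 1 + c1) * K) := by
          gcongr
          exact (g3 h h2).2
      _ = (ε / 2 * (N * log |β|) + (ε * log |α| / 2 + 2 * (g / log |α| + 1 + c1) + 2 * G)) * K := by
          field_simp
          ring
      _ ≤ _ := by
          gcongr
          linarith
  · rw [io_add hβ s0, Nat.add_sub_cancel_left]
    have a2 := k3 h0 β ((io_mono hβ (le_add_of_nonneg_right g4)).trans x5) N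
    have a1 : ‖∑ n ∈ range N, ee (h0 * (ξ * β ^ n)) *
        (EE τ M (h0 * τ ^ e) (p - ξ') (exp (-s)) r (h0 * β ^ (m0 + n)) - Φ 1 * exp (-s))‖ ≤
        N * (c0 / 8 * exp (-s)) := by
      refine (norm_sum_le_of_le _ (n := fun _ => c0 / 8 * exp (-s)) fun n hn => ?_).trans (by simp)
      rw [norm_mul, ee_norm, one_mul]
      refine hW0 (e' n) r _ _ _ _ (w0.trans (e6 n)) (le_trans (by omega) (r2 n hn)) p0 l0.le
        (g1.trans e3) ?_
      rw [abs_mul, e7, Nat.abs_cast]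
      ring
    simp only [mul_sub, sum_sub_distrib] at a1
    rw [← sum_mul] at a1
    simp only [pow_add β m0, ← mul_assoc ξ', x2] at a1 a2
    have a3 := (norm_sub_le_norm_sub_add_norm_sub _ _ _).trans (add_le_add a2 a1)
    generalize ∑ n ∈ range N, ee (h0 * (ξ * β ^ n)) = S at a3 n1
    generalize ∑ n ∈ range N, ee (h0 * (ξ' * β ^ (io β s + n))) *
      EE τ M (h0 * τ ^ e) (p - ξ') (exp (-s)) r (h0 * β ^ (io β s + n)) = T at a3 ⊢
    have a4 := (abs_le.mp (Complex.abs_re_le_norm (ω * (T - S * (Φ 1 * exp (-s)))))).1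
    rw [norm_mul, hω, one_mul, mul_sub, Complex.sub_re, ← mul_assoc ω, ← Complex.ofReal_mul,
      Complex.re_mul_ofReal, Complex.ofReal_mul] at a4
    have a5 := e5 hβ x6
    have a6 : c0 * N * (1 / 2 * exp (-s)) ≤ (ω * S).re * (Φ 1 * exp (-s)) := by
      have : 0 ≤ c0 * N := by positivity
      gcongr
      linarith
    have a7 : 2 * (((m0 - io β s : ℕ) : ℝ) * K) ≤ c0 * N / 8 * exp (-s) := by
      rw [div_le_iff₀ hc] at n4
      calc _ ≤ 2 * ((g / log |β| + 1 + c1) * (2 * M * exp (-s))) := by gcongr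
        _ = 32 * M * (g / log |β| + 1 + c1) / 8 * exp (-s) := by ring
        _ ≤ _ := by gcongr ?_ / 8 * _; linarith
    have a8 : c0 / (8 * M * log |β|) * (N * log |β|) * K ≤ c0 * N / 4 * exp (-s) := by
      calc _ ≤ c0 / (8 * M * log |β|) * (N * log |β|) * (2 * M * exp (-s)) := by gcongr
        _ = _ := by field_simp; ring
    linarith

theorem sel {ι : Type} (I : Finset ι) (X : ι → ℝ → ℂ) (hX : ∀ i, Continuous (X i)) {w : ℝ → ℝ}
    (hw : Continuous w) (w0 : ∀ u, 0 ≤ w u) {p l : ℝ} (hl : 0 ≤ l) (w1 : 0 < ∫ t in p..p + l, w t)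
    (V : ι → ℂ) : ∃ t, p ≤ t ∧ t ≤ p + l ∧ (∑ i ∈ I, starRingEnd ℂ (V i) *
      (X i t - (∫ t in p..p + l, X i t * w t) / (∫ t in p..p + l, w t : ℝ))).re ≤ 0 := by
  generalize hμ : (fun i => (∫ t in p..p + l, X i t * w t) / (∫ t in p..p + l, w t : ℝ)) = μ
  have hμ' := congrFun hμ
  simp only [hμ']
  have hc : Continuous fun t => ∑ i ∈ I, starRingEnd ℂ (V i) * (X i t - μ i) := by fun_prop
  have hc' := Complex.continuous_re.comp hc
  obtain ⟨t, ht, hm⟩ := (isCompact_Icc (a := p) (b := p + l)).exists_isMinOn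
    ⟨p, le_rfl, by linarith⟩ hc'.continuousOn
  refine ⟨t, ht.1, ht.2, ?_⟩
  have h1 := intervalIntegral.integral_mono_on (μ := MeasureTheory.volume) (by linarith : p ≤ p + l)
    ((continuous_const.mul hw).intervalIntegrable _ _) ((hc'.mul hw).intervalIntegrable _ _)
    fun x hx => mul_le_mul_of_nonneg_right (hm hx) (w0 x)
  have h2 : ∫ t in p..p + l, (∑ i ∈ I, starRingEnd ℂ (V i) * (X i t - μ i)) * w t = 0 := by
    simp only [sum_mul]
    rw [intervalIntegral.integral_finset_sum fun k _ =>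
      Continuous.intervalIntegrable (by fun_prop) _ _]
    refine sum_eq_zero fun i _ => ?_
    simp only [mul_assoc, sub_mul]
    rw [intervalIntegral.integral_const_mul, intervalIntegral.integral_sub
      (Continuous.intervalIntegrable (by fun_prop) _ _)
      (Continuous.intervalIntegrable (by fun_prop) _ _), intervalIntegral.integral_const_mul,
      intervalIntegral.integral_ofReal, ← hμ', div_mul_cancel₀ _ (by exact_mod_cast w1.ne'),
      sub_self, mul_zero]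
  have h3 := Complex.reCLM.intervalIntegral_comp_comm (μ := MeasureTheory.volume) (a := p)
    (b := p + l) ((hc.mul (Complex.continuous_ofReal.comp hw)).intervalIntegrable _ _)
  simp only [Complex.reCLM_apply, Function.comp, Pi.mul_apply, Complex.re_mul_ofReal] at h3 h1
  rw [h2, Complex.zero_re] at h3
  rw [h3, intervalIntegral.integral_const_mul] at h1
  by_contra hn
  linarith [mul_pos (not_le.mp hn) w1]

theorem greedy {ι : Type} (I : Finset ι) (X : ι → ℕ → ℝ → ℂ) (hX : ∀ i b, Continuous (X i b))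
    (l : ℕ → ℝ) (l0 : ∀ b, 0 ≤ l b) (l1 : ∀ b, l (b + 1) ≤ l b) (φ : ι → ℂ → ℝ) (a : ι → ℝ)
    (f1 : ∀ i x y, φ i (x + y) ≤ φ i x + φ i y) (f2 : ∀ i x, φ i x ≤ ‖x‖) {C Λ : ℝ}
    (hC : ∀ i ∈ I, ∀ b t, ‖X i b t‖ ≤ C)
    (hL : ∀ i ∈ I, ∀ b t t', |t - t'| ≤ l (b + 1) → ‖X i b t - X i b t'‖ ≤ Λ)
    (hw : ∀ b p, ∃ w : ℝ → ℝ, Continuous w ∧ (∀ u, 0 ≤ w u) ∧ 0 < ∫ t in p..p + l b, w t ∧
      ∀ i ∈ I, φ i ((∫ t in p..p + l b, X i b t * w t) / (∫ t in p..p + l b, w t : ℝ)) ≤ a i)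
    (K : ℕ) : Step (l 0) (l K) fun t => ∀ i ∈ I, φ i (∑ b ∈ range K, X i b t) ≤
      K * a i + K * Λ + √(K * (I.card * (2 * C) ^ 2)) := by
  have key : ∀ p, ∃ (p' : ℝ) (S V : ι → ℂ), p ≤ p' ∧ p' + l K ≤ p + l 0 ∧
      (∀ i ∈ I, φ i (S i) ≤ K * a i) ∧ ∑ i ∈ I, ‖V i‖ ^ 2 ≤ K * (I.card * (2 * C) ^ 2) ∧
      ∀ t, p' ≤ t → t ≤ p' + l K → ∀ i ∈ I, ‖∑ b ∈ range K, X i b t - S i - V i‖ ≤ K * Λ := by
    intro p
    induction K with
    | zero => exact ⟨p, 0, 0, le_rfl, le_rfl, fun i _ => by simpa using f2 i 0, by simp, by simp⟩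
    | succ K ih =>
      obtain ⟨q, S, V, h1, h2, h3, h4, h5⟩ := ih
      obtain ⟨w, w1, w2, w3, w4⟩ := hw K q
      obtain ⟨t0, t1, t2, t3⟩ := sel I (fun i => X i K) (fun i => hX i K) w1 w2 (l0 K) w3 V
      have hμ : ∀ i ∈ I, ‖(∫ t in q..q + l K, X i K t * w t) / (∫ t in q..q + l K, w t : ℝ)‖ ≤ C := by
        intro i hi
        rw [norm_div, Complex.norm_real, Real.norm_of_nonneg w3.le, div_le_iff₀ w3,
          ← intervalIntegral.integral_const_mul]
        refine intervalIntegral.norm_integral_le_of_norm_le (by linarith [l0 K])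
          (Eventually.of_forall fun t _ => ?_) ((continuous_const.mul w1).intervalIntegrable _ _)
        rw [norm_mul, Complex.norm_real, Real.norm_of_nonneg (w2 t)]
        exact mul_le_mul_of_nonneg_right (hC i hi K t) (w2 t)
      generalize hμ' : (fun i => (∫ t in q..q + l K, X i K t * w t) /
        (∫ t in q..q + l K, w t : ℝ)) = μ
      simp only [congrFun hμ'] at hμ w4 t3
      have e1 := min_le_right t0 (q + l K - l (K + 1))
      have e2 : q ≤ min t0 (q + l K - l (K + 1)) := le_min t1 (by linarith [l1 K])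
      refine ⟨min t0 (q + l K - l (K + 1)), fun i => S i + μ i, fun i => V i + (X i K t0 - μ i),
        h1.trans e2, by linarith, fun i hi => ?_, ?_, fun t a1 a2 i hi => ?_⟩
      · refine (f1 _ _ _).trans ?_
        push_cast
        linarith [h3 i hi, w4 i hi]
      · have e3 : ∀ i ∈ I, ‖V i + (X i K t0 - μ i)‖ ^ 2 ≤ ‖V i‖ ^ 2 +
            2 * (starRingEnd ℂ (V i) * (X i K t0 - μ i)).re + (2 * C) ^ 2 := fun i hi => by
          have a1 : ‖X i K t0 - μ i‖ ≤ 2 * C := by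
            linarith [norm_sub_le (X i K t0) (μ i), hC i hi K t0, hμ i hi]
          have a2 := pow_le_pow_left₀ (norm_nonneg _) a1 2
          generalize X i K t0 - μ i = z at a2
          simp only [Complex.sq_norm, Complex.normSq_apply, Complex.add_re, Complex.add_im,
            Complex.mul_re, Complex.conj_re, Complex.conj_im] at a2 ⊢
          nlinarith
        have e4 := sum_le_sum e3
        rw [sum_add_distrib, sum_add_distrib, ← mul_sum, ← Complex.re_sum, sum_const,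
          nsmul_eq_mul] at e4
        push_cast
        linarith
      · have hd : |t - t0| ≤ l (K + 1) := by
          rw [abs_le]
          constructor
          · rcases min_choice t0 (q + l K - l (K + 1)) with e | e <;> rw [e] at a1 <;>
              linarith [l0 (K + 1)]
          · linarith [min_le_left t0 (q + l K - l (K + 1))]
        rw [sum_range_succ, show ∑ b ∈ range K, X i b t + X i K t - (S i + μ i) -
          (V i + (X i K t0 - μ i)) = (∑ b ∈ range K, X i b t - S i - V i) + (X i K t - X i K t0) by ring]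
        refine (norm_add_le _ _).trans ?_
        push_cast
        linarith [h5 t (e2.trans a1) (by linarith) i hi, hL i hi K t t0 hd]
  intro p
  obtain ⟨q, S, V, h1, h2, h3, h4, h5⟩ := key p
  refine ⟨q, h1, h2, fun t a1 a2 i hi => ?_⟩
  have e1 : ‖V i‖ ≤ √(K * (I.card * (2 * C) ^ 2)) := le_sqrt_of_sq_le
    ((single_le_sum (f := fun i => ‖V i‖ ^ 2) (fun _ _ => by positivity) hi).trans h4)
  rw [show ∑ b ∈ range K, X i b t = S i + ((∑ b ∈ range K, X i b t - S i - V i) + V i) by ring]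
  linarith [f1 i (S i) ((∑ b ∈ range K, X i b t - S i - V i) + V i),
    f2 i ((∑ b ∈ range K, X i b t - S i - V i) + V i), h3 i hi, h5 t a1 a2 i hi,
    norm_add_le (∑ b ∈ range K, X i b t - S i - V i) (V i)]

end Pool.Agent.H.MP_3974fb_lc
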