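import Pool.Agent.H.MP_3974fb_lc.C

set_option autoImplicit false

namespace Pool.Agent.H.MP_3974fb_lc
open Finset Filter Topology Real Pool.Agent.H.MP_f44585_an Pool.Agent.H.MP_0447a2_lc

theorem sq_small (A E : ℝ) {δ : ℝ} (hδ : 0 < δ) : ∀ᶠ k : ℕ in atTop, √(k * A) + E ≤ δ * k := by
  filter_upwards [tendsto_natCast_atTop_atTop.eventually_ge_atTop (A / (δ / 2) ^ 2),
    tendsto_natCast_atTop_atTop.eventually_ge_atTop (E / (δ / 2))] with k h1 h2
  rw [div_le_iff₀ (by positivity)] at h1 h2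
  have hk : (0 : ℝ) ≤ k := Nat.cast_nonneg k
  have : √(k * A) ≤ δ / 2 * k := sqrt_le_iff.mpr ⟨by positivity, by nlinarith⟩
  linarith

theorem SS_sum {ζ : ℝ} (hζ : 1 < |ζ|) (h : ℕ) (s t : ℝ) {D : ℝ} (hD : 0 ≤ D) (K : ℕ) :
    ∑ b ∈ range K, SS ζ h (s + b * D) (s + b * D + D) t = SS ζ h s (s + K * D) t := by
  induction K with
  | zero => simp [SS]
  | succ K ih =>
    rw [sum_range_succ, ih, ← SS_add hζ h (le_add_of_nonneg_right (by positivity)) (by linarith)]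
    congr 1
    push_cast
    ring

theorem qstep {α β c : ℝ} {h0 : ℕ} {ω : ℂ} (hα : 1 < |α|) (hβ : 1 < |β|) (hω : ‖ω‖ = 1) (hc : 0 < c)
    (hb : Blk α β h0 ω c) (m H : ℕ) : ∀ᶠ k : ℕ in atTop, ∀ s : ℝ, 0 ≤ s → ∃ d : ℝ, 0 ≤ d ∧
      d ≤ 2 * k / (m + 2) ∧ Step (exp (-s)) (exp (-(s + d))) fun t =>
        c / 2 / (m + 2) * k ≤ (ω * SS β h0 s (s + d) t).re ∧
        ∀ j, 1 ≤ j → j ≤ H → ‖SS α j s (s + d) t‖ ≤ (k + 1) / (H + 1) := by
  have la := log_pos hα
  have lb := log_pos hβ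
  have ka := KK_pos hα
  have kb := KK_pos hβ
  obtain ⟨ε, e0, e1, e2⟩ : ∃ ε : ℝ, 0 < ε ∧ ε ≤ 1 / (H + 1) / 4 ∧ ε ≤ c / 2 :=
    ⟨min _ _, lt_min (by positivity) (by positivity), min_le_left _ _, min_le_right _ _⟩
  obtain ⟨D, d1, hD⟩ := hb H ε (max 1 ((7 * H * KK α + 7 * h0 * KK β) / ε)) e0
  have d2 : 1 ≤ D := (le_max_left _ _).trans d1
  have d3 := (div_le_iff₀ e0).mp ((le_max_right _ _).trans d1)
  filter_upwards [sq_small (((range (H + 1)).card : ℝ) * (2 * (D / log |α| + D / log |β| + 1)) ^ 2)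
    (c / 2 * D) (δ := min (1 / (H + 1) / 2) (c / 2 / (m + 2))) (by positivity)] with k hk s s0
  have hk0 : (0 : ℝ) ≤ k := Nat.cast_nonneg k
  have k1 := Nat.floor_le (a := 2 * k / (m + 2) / D) (by positivity)
  have k2 := Nat.lt_floor_add_one (2 * k / (m + 2) / D)
  generalize ⌊2 * k / (m + 2) / D⌋₊ = K at k1 k2
  rw [le_div_iff₀ (by linarith)] at k1
  rw [div_lt_iff₀ (by linarith)] at k2
  have k3 : 2 * (k : ℝ) / (m + 2) ≤ k := by
    rw [div_le_iff₀ (by positivity)]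
    nlinarith [mul_nonneg hk0 (Nat.cast_nonneg (α := ℝ) m)]
  have K0 : (0 : ℝ) ≤ K := Nat.cast_nonneg K
  have k4 : √(K * (((range (H + 1)).card : ℝ) * (2 * (D / log |α| + D / log |β| + 1)) ^ 2)) ≤
      √(k * (((range (H + 1)).card : ℝ) * (2 * (D / log |α| + D / log |β| + 1)) ^ 2)) := by
    have : (K : ℝ) ≤ k := by nlinarith
    gcongr
  have hs : ∀ b : ℕ, 0 ≤ s + b * D := fun b => by positivity
  have hl : ∀ b : ℕ, -(s + ((b + 1 : ℕ) : ℝ) * D) = -(s + b * D + D) := fun b => by push_cast; ring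
  have da : 0 ≤ D / log |α| := by positivity
  have db : 0 ≤ D / log |β| := by positivity
  have := greedy (range (H + 1))
    (fun i b t => if i = 0 then SS β h0 (s + b * D) (s + b * D + D) t
      else SS α i (s + b * D) (s + b * D + D) t)
    (fun i b => by split_ifs <;> exact SS_cont _ _ _ _) (fun b => exp (-(s + b * D)))
    (fun b => (exp_pos _).le) (fun b => exp_le_exp.mpr (by rw [hl]; linarith))
    (fun i x => if i = 0 then -(ω * x).re else ‖x‖) (fun i => if i = 0 then -(c * D) else ε * D)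
    (fun i x y => by
      split_ifs
      · rw [mul_add, Complex.add_re]
        linarith
      · exact norm_add_le x y)
    (fun i x => by
      split_ifs
      · have := (abs_le.mp (Complex.abs_re_le_norm (ω * x))).1
        rw [norm_mul, hω, one_mul] at this
        linarith
      · rfl)
    (C := D / log |α| + D / log |β| + 1) (Λ := ε * D)
    (fun i _ b t => by
      split_ifs
      · refine (SS_triv hβ _ (hs b) (by linarith) t).trans ?_
        rw [add_sub_cancel_left]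
        linarith
      · refine (SS_triv hα _ (hs b) (by linarith) t).trans ?_
        rw [add_sub_cancel_left]
        linarith)
    (fun i hi b t t' ht => by
      have key : ∀ {ζ : ℝ}, 1 < |ζ| → ∀ h : ℕ, ‖SS ζ h (s + b * D) (s + b * D + D) t -
          SS ζ h (s + b * D) (s + b * D + D) t'‖ ≤ 7 * h * KK ζ := by
        intro ζ h1 h
        rw [SS, SS, ← sum_sub_distrib]
        rw [hl] at ht
        refine (norm_sum_le_of_le _ (n := fun n => 7 * h * exp (-(s + b * D + D)) * |ζ| ^ n)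
          fun n _ => (ee_sub _ _).trans ?_).trans ?_
        · rw [← mul_sub, ← sub_mul, abs_mul, abs_mul, abs_pow, Nat.abs_cast]
          have : |t - t'| * |ζ| ^ n ≤ exp (-(s + b * D + D)) * |ζ| ^ n := by gcongr
          nlinarith [mul_le_mul_of_nonneg_left this (Nat.cast_nonneg (α := ℝ) h)]
        · rw [← mul_sum]
          refine (mul_le_mul_of_nonneg_left (geo2 h1 _ _) (by positivity)).trans (le_of_eq ?_)
          rw [exp_neg]
          field_simp
      have a1 : 0 ≤ 7 * H * KK α := by positivity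
      have a2 : 0 ≤ 7 * h0 * KK β := by positivity
      split_ifs
      · linarith [key hβ h0]
      · have a3 : (i : ℝ) ≤ H := by exact_mod_cast Nat.lt_succ_iff.mp (mem_range.mp hi)
        have a4 : 7 * i * KK α ≤ 7 * H * KK α := by gcongr
        linarith [key hα i])
    (fun b p => by
      obtain ⟨w, w1, w2, w3, w4, w5⟩ := hD (s + b * D) p (hs b)
      refine ⟨w, w1, w2, w3, fun i hi => ?_⟩
      split_ifs with h
      · rw [← mul_div_assoc, Complex.div_ofReal_re, neg_le_neg_iff, le_div_iff₀ w3]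
        exact w5
      · rw [norm_div, Complex.norm_real, Real.norm_of_nonneg w3.le, div_le_iff₀ w3]
        exact w4 i (by omega) (Nat.lt_succ_iff.mp (mem_range.mp hi))) K
  refine ⟨K * D, by positivity, k1, this.mono (by simp) le_rfl fun t ht => ⟨?_, fun j j1 j2 => ?_⟩⟩
  · have a1 := ht 0 (mem_range.mpr (by omega))
    simp only [if_true, SS_sum hβ h0 s t (by linarith : 0 ≤ D)] at a1
    have a2 := mul_le_mul_of_nonneg_right (min_le_right (1 / ((H : ℝ) + 1) / 2) (c / 2 / (m + 2))) hk0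
    have a3 : K * (ε * D) ≤ K * (c / 2 * D) := by gcongr
    have a4 : c / 2 * (2 * k / (m + 2)) ≤ c / 2 * ((K + 1) * D) := by gcongr
    have a5 : c / 2 * (2 * k / (m + 2)) = 2 * (c / 2 / (m + 2) * k) := by ring
    linarith
  · have a1 := ht j (mem_range.mpr (by omega))
    simp only [if_neg (by omega : j ≠ 0), SS_sum hα j s t (by linarith : 0 ≤ D)] at a1
    have a2 := mul_le_mul_of_nonneg_right (min_le_left (1 / ((H : ℝ) + 1) / 2) (c / 2 / (m + 2))) hk0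
    have a3 : ε * (K * D) ≤ 1 / (H + 1) / 4 * k := by
      gcongr
      linarith
    have a4 : 0 ≤ c / 2 * D := by positivity
    have a5 : ((k : ℝ) + 1) / (H + 1) = 1 / (H + 1) * k + 1 / (H + 1) := by ring
    have a6 : (0 : ℝ) ≤ 1 / (H + 1) := by positivity
    linarith

theorem nud2 {β t : ℝ} (h : 1 < |β|) {h0 : ℕ} (hh0 : 1 ≤ h0) {ω : ℂ} (hω : ‖ω‖ = 1) {lev g : ℕ → ℕ}
    (hg : Tendsto g atTop atTop) (hlev : ¬ Tendsto lev atTop atTop) {c e : ℕ → ℝ} (hc : ∀ m, 0 < c m)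
    (he : Tendsto e atTop (𝓝 0)) (hb : ∀ᶠ k : ℕ in atTop, c (min (lev (Nat.log 2 k)) (g k)) * k -
      e k * (k + 1) ≤ (ω * SS β h0 (k ^ 2) ((k + 1 : ℕ) ^ 2) t).re) : ¬ UD fun n => t * β ^ n := by
  intro hu
  have hl := log_pos h
  obtain ⟨m, hm⟩ : ∃ m, ∃ᶠ j in atTop, lev j = m := by
    by_contra hc
    push Not at hc
    refine hlev (tendsto_atTop.mpr fun b => ?_)
    filter_upwards [(eventually_all_finset (range b)).mpr fun m _ => hc m] with j hj
    by_contra h1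
    exact hj _ (mem_range.mpr (not_le.mp h1)) rfl
  have c0 := hc m
  obtain ⟨K, hK⟩ := eventually_atTop.mp (hb.and ((hg.eventually_ge_atTop m).and
    ((tendsto_order.mp he).2 (c m / 4) (by positivity))))
  obtain ⟨C, C0, hC⟩ := ws_le hu hh0 (ε := c m / 20 / (1 / log |β| + 1)) (by positivity)
  have ev : ∀ᶠ j : ℕ in atTop, 8 * C / c m < ((2 ^ j : ℕ) : ℝ) :=
    (tendsto_natCast_atTop_atTop.comp
      (tendsto_pow_atTop_atTop_of_one_lt one_lt_two)).eventually_gt_atTop _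
  obtain ⟨j, j1, j2, j3⟩ := (hm.and_eventually ((eventually_ge_atTop K).and ev)).exists
  have h1 : ∀ k, 2 ^ j ≤ k → k < 2 ^ j * 2 →
      c m / 2 * k ≤ (ω * ∑ n ∈ Ico (TT β k) (TT β (k + 1)), ee (h0 * (t * β ^ n))).re := by
    intro k k1 k2
    obtain ⟨a1, a2, a3⟩ := hK k (j2.trans (Nat.lt_two_pow_self.le.trans k1))
    rw [Nat.log_eq_of_pow_le_of_lt_pow k1 k2, j1, min_eq_left a2] at a1
    have a4 : (1 : ℝ) ≤ k := by exact_mod_cast Nat.one_le_two_pow.trans k1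
    refine le_trans ?_ a1
    nlinarith
  have w1 : 1 ≤ 2 ^ j := Nat.one_le_two_pow
  generalize 2 ^ j = w at h1 j3 w1
  have w2 : (1 : ℝ) ≤ w := by exact_mod_cast w1
  have h2 : ∀ i : ℕ, i ≤ w → (ω * ∑ n ∈ range (TT β w), ee (h0 * (t * β ^ n))).re +
      i * (c m / 2 * w) ≤ (ω * ∑ n ∈ range (TT β (w + i)), ee (h0 * (t * β ^ n))).re := by
    intro i
    induction i with
    | zero => simp
    | succ i ih =>
      intro hi
      have := h1 (w + i) (by omega) (by omega)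
      rw [← add_assoc, ← sum_range_add_sum_Ico _ (TT_mono h (w + i).le_succ), mul_add, Complex.add_re]
      push_cast at this ⊢
      nlinarith [ih (by omega), mul_nonneg c0.le (Nat.cast_nonneg (α := ℝ) i)]
  have h3 : ∀ k : ℕ, 1 ≤ k → |(ω * ∑ n ∈ range (TT β k), ee (h0 * (t * β ^ n))).re| ≤
      c m / 20 * k ^ 2 + C := by
    intro k hk
    refine (Complex.abs_re_le_norm _).trans ?_
    rw [norm_mul, hω, one_mul]
    refine (hC _).trans (add_le_add_left ?_ _)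
    have e1 := io_lt h (s := (k : ℝ) ^ 2) (by positivity)
    have e2 : (1 : ℝ) ≤ k := by exact_mod_cast hk
    have e3 : (TT β k : ℝ) ≤ (1 / log |β| + 1) * k ^ 2 := by
      rw [add_mul, one_div_mul_eq_div]
      unfold TT
      nlinarith
    calc _ ≤ c m / 20 / (1 / log |β| + 1) * ((1 / log |β| + 1) * k ^ 2) := by gcongr
      _ = _ := by field_simp
  have a1 := h2 w le_rfl
  have a2 := (abs_le.mp (h3 w w1)).1
  have a3 := (abs_le.mp (h3 (w + w) (by omega))).2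
  rw [div_lt_iff₀ c0] at j3
  push_cast at a3
  nlinarith [mul_pos c0 (by linarith : (0 : ℝ) < w)]

theorem main2 {α β c : ℝ} {h0 : ℕ} {ω : ℂ} (h1 : 1 < |α|) (h2 : 1 < |β|) (hh0 : 1 ≤ h0) (hω : ‖ω‖ = 1)
    (hc : 0 < c) (hb : Blk α β h0 ω c)
    {Y : Type} [TopologicalSpace Y] (m0 m1 : Y → ℕ → ℕ)
    (l0 : ∀ k, IsLocallyConstant fun y => m0 y k) (l1 : ∀ k, IsLocallyConstant fun y => m1 y k) :
    ∃ f : Y → ℝ, Continuous f ∧ ∀ y,
      ((UD fun n => f y * α ^ n) ↔ Tendsto (m0 y) atTop atTop) ∧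
      (Tendsto (m0 y) atTop atTop →
        ((UD fun n => f y * β ^ n) ↔ Tendsto (m1 y) atTop atTop)) := by
  choose L γ hp using par h1
  obtain ⟨C, hC⟩ := rand h1 h2
  have la := log_pos h1
  have lb := log_pos h2
  obtain ⟨f, g, f1, g1, f2⟩ := machine (fun k => exp (-(k : ℝ) ^ 2)) (fun k => (exp_pos _).le)
    (fun k => exp_le_exp.mpr (neg_le_neg (by gcongr; omega)))
    (tendsto_exp_neg_atTop_nhds_zero.comp
      ((tendsto_pow_atTop two_ne_zero).comp tendsto_natCast_atTop_atTop))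
    (fun μ H k t => Hit α (2 * γ μ.1) (1 / ((μ.1 + 2) * L μ.1 * log |α|)) k t ∧
      (h0 ≤ H → c / 2 / (μ.2 + 2) * k - (2 / log |β| * ((μ.1 : ℝ) + 2)⁻¹ + ((H : ℝ) + 1)⁻¹) * (k + 1) ≤
        (ω * SS β h0 (k ^ 2) ((k + 1 : ℕ) ^ 2) t).re) ∧
      ∀ j, 1 ≤ j → j ≤ H →
        ‖SS α j (k ^ 2) ((k + 1 : ℕ) ^ 2) t‖ ≤
          (2 / log |α| * ((μ.1 : ℝ) + 2)⁻¹ + 2 * ((H : ℝ) + 1)⁻¹) * (k + 1) ∧
        ‖SS β j (k ^ 2) ((k + 1 : ℕ) ^ 2) t‖ ≤ (2 / log |β| * ((μ.1 : ℝ) + 2)⁻¹ +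
          2 / log |β| * ((μ.2 : ℝ) + 2)⁻¹ + ((H : ℝ) + 1)⁻¹) * (k + 1))
    (fun μ H => by
      obtain ⟨p0, p1, p2, p3, -⟩ := hp μ.1
      filter_upwards [arith h1 μ.1 p0, qstep h1 h2 hω hc hb μ.2 H, small C H]
        with k ⟨r, _, r1, r2⟩ q1 q2
      have hk0 : (0 : ℝ) ≤ k := Nat.cast_nonneg k
      have hle : ∀ m : ℕ, 2 * (k : ℝ) / (m + 2) ≤ k := fun m => by
        rw [div_le_iff₀ (by positivity)]
        nlinarith [mul_nonneg hk0 (Nat.cast_nonneg (α := ℝ) m)]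
      have s0 := (bias h1 p1.le (by linarith) (L := L μ.1) (by linarith) (s := (k : ℝ) ^ 2)
        (by positivity) r).mono le_rfl (m' := exp (-(k ^ 2 + 2 * k / (μ.1 + 2))))
        (exp_le_exp.mpr (by nlinarith)) fun t ht => r2 _ (2 * γ μ.1) t _ le_rfl (by linarith) le_rfl
          (by omega) fun j hj => (ht j hj).trans_lt (by linarith)
      have d0 : 0 ≤ 2 * (k : ℝ) / (μ.1 + 2) := by positivity
      obtain ⟨d, d1, d2, s1⟩ := q1 (k ^ 2 + 2 * k / (μ.1 + 2)) (by positivity)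
      have d3 : (k : ℝ) ^ 2 + 2 * k / (μ.1 + 2) + d ≤ ((k + 1 : ℕ) : ℝ) ^ 2 := by
        push_cast
        nlinarith [hle μ.1, hle μ.2]
      have s2 := hC H _ _ (by positivity) d3
      have q3 := q2 (((k + 1 : ℕ) : ℝ) ^ 2 - (k ^ 2 + 2 * k / (μ.1 + 2) + d)) (by linarith)
        (by push_cast; nlinarith)
      have b1 : ∀ {ζ : ℝ}, 1 < |ζ| → ∀ (j m : ℕ) (s c t : ℝ), 0 ≤ s → 0 ≤ c → c ≤ 2 * k / (m + 2) →
          ‖SS ζ j s (s + c) t‖ ≤ 2 / log |ζ| * ((m : ℝ) + 2)⁻¹ * (k + 1) + 1 := by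
        intro ζ hζ j m s c t a1 a2 a3
        refine (SS_triv hζ j a1 (by linarith) t).trans (add_le_add_left ?_ _)
        have := log_pos hζ
        rw [add_sub_cancel_left]
        calc c / log |ζ| ≤ 2 * (k + 1) / (m + 2) / log |ζ| := by
              gcongr
              exact a3.trans (by gcongr; linarith)
          _ = _ := by field_simp
      have e : ((k : ℝ) + 1) / (H + 1) = ((H : ℝ) + 1)⁻¹ * (k + 1) := by ring
      refine ((s0.comp s1).comp s2).mono le_rfl le_rfl fun t ⟨⟨t1, t2, t3⟩, t4⟩ =>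
        ⟨t1, fun j2 => ?_, fun j j1 j2 => ⟨?_, ?_⟩⟩
      · rw [SS_add h2 h0 (s' := k ^ 2 + 2 * k / (μ.1 + 2) + d) (by linarith) d3,
          SS_add h2 h0 (s' := k ^ 2 + 2 * k / (μ.1 + 2)) (by linarith) (by linarith), mul_add ω,
          mul_add ω, Complex.add_re, Complex.add_re]
        have a0 : ∀ x : ℂ, -‖x‖ ≤ (ω * x).re := fun x => by
          have := (abs_le.mp (Complex.abs_re_le_norm (ω * x))).1
          rwa [norm_mul, hω, one_mul] at this
        have := b1 h2 h0 μ.1 (k ^ 2) _ t (by positivity) d0 le_rfl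
        have := (t4 h0 hh0 j2).2
        have := a0 (SS β h0 (k ^ 2) (k ^ 2 + 2 * k / (μ.1 + 2)) t)
        have := a0 (SS β h0 (k ^ 2 + 2 * k / (μ.1 + 2) + d) ((k + 1 : ℕ) ^ 2) t)
        linarith
      · rw [SS_add h1 j (s' := k ^ 2 + 2 * k / (μ.1 + 2) + d) (by linarith) d3,
          SS_add h1 j (s' := k ^ 2 + 2 * k / (μ.1 + 2)) (by linarith) (by linarith)]
        refine (norm_add₃_le).trans ?_
        have := b1 h1 j μ.1 (k ^ 2) _ t (by positivity) d0 le_rfl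
        have := t3 j j1 j2
        have := (t4 j j1 j2).1
        linarith
      · rw [SS_add h2 j (s' := k ^ 2 + 2 * k / (μ.1 + 2) + d) (by linarith) d3,
          SS_add h2 j (s' := k ^ 2 + 2 * k / (μ.1 + 2)) (by linarith) (by linarith)]
        refine (norm_add₃_le).trans ?_
        have := b1 h2 j μ.1 (k ^ 2) _ t (by positivity) d0 le_rfl
        have := b1 h2 j μ.2 (k ^ 2 + 2 * k / (μ.1 + 2)) _ t (by positivity) d1 d2
        have := (t4 j j1 j2).2
        linarith)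
    (fun y k => (m0 y (Nat.log 2 k), m1 y (Nat.log 2 k)))
    fun k => (l0 _).prodMk (l1 _)
  have hlog : Tendsto (Nat.log 2) atTop atTop := tendsto_atTop.mpr fun b =>
    (eventually_ge_atTop (2 ^ b)).mono fun k hk => Nat.le_log_of_pow_le one_lt_two hk
  have hinv : ∀ (c : ℝ) {v : ℕ → ℕ}, Tendsto v atTop atTop →
      Tendsto (fun k => ((v k : ℝ) + c)⁻¹) atTop (𝓝 0) := fun c v hv =>
    (tendsto_atTop_add_const_right _ c (tendsto_natCast_atTop_atTop.comp hv)).inv_tendsto_atTop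
  have hmin : ∀ {v : ℕ → ℕ}, Tendsto v atTop atTop →
      Tendsto (fun k => min (v (Nat.log 2 k)) (g k)) atTop atTop := fun hv =>
    tendsto_atTop.mpr fun b => (((hv.comp hlog).eventually_ge_atTop b).and
      (g1.eventually_ge_atTop b)).mono fun k hk => le_min hk.1 hk.2
  refine ⟨f, f1, fun y => ⟨⟨fun hu => ?_, fun hm => ?_⟩, fun a => ⟨fun hu => ?_, fun b => ?_⟩⟩⟩
  · by_contra hm
    exact nud h1 g1 hm hp ((f2 y).mono fun k hk m hm => hm ▸ hk.1) hu
  · refine ud h1 ?_ g1 ((f2 y).mono fun k hk j j1 j2 => (hk.2.2 j j1 j2).1)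
    simpa using ((hinv 2 (hmin hm)).const_mul (2 / log |α|)).add ((hinv 1 g1).const_mul 2)
  · by_contra hm
    refine nud2 h2 hh0 hω g1 hm (c := fun m => c / 2 / (m + 2)) (fun m => by positivity) ?_
      (((f2 y).and (g1.eventually_ge_atTop h0)).mono fun k hk => hk.1.2.1 hk.2) hu
    simpa using ((hinv 2 (hmin a)).const_mul (2 / log |β|)).add (hinv 1 g1)
  · refine ud h2 ?_ g1 ((f2 y).mono fun k hk j j1 j2 => (hk.2.2 j j1 j2).2)
    simpa using (((hinv 2 (hmin a)).const_mul (2 / log |β|)).add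
      ((hinv 2 (hmin b)).const_mul (2 / log |β|))).add (hinv 1 g1)

theorem biasd {u : ℕ → ℝ} (hu : ¬ UD u) : ∃ (h0 : ℕ) (ω : ℂ) (c : ℝ), 1 ≤ h0 ∧ ‖ω‖ = 1 ∧ 0 < c ∧
    ∃ᶠ N : ℕ in atTop, c * N ≤ (ω * ∑ m ∈ range N, ee (h0 * u m)).re := by
  by_contra hc
  push Not at hc
  refine hu (ud_of_ws fun h hh => Metric.tendsto_nhds.mpr fun ε hε => ?_)
  filter_upwards [hc h 1 (ε / 2) hh (by simp) (by positivity),
    hc h (-1) (ε / 2) hh (by simp) (by positivity), hc h Complex.I (ε / 2) hh (by simp) (by positivity),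
    hc h (-Complex.I) (ε / 2) hh (by simp) (by positivity), eventually_gt_atTop 0] with N a1 a2 a3 a4 a5
  rw [dist_zero_right, norm_div, Complex.norm_natCast, div_lt_iff₀ (by exact_mod_cast a5)]
  generalize ∑ m ∈ range N, ee (h * u m) = z at *
  simp only [one_mul, neg_mul, Complex.neg_re, Complex.I_mul_re] at a1 a2 a3 a4
  refine (Complex.norm_le_abs_re_add_abs_im z).trans_lt ?_
  linarith [abs_lt.mpr (⟨by linarith, a1⟩ : -(ε / 2 * N) < z.re ∧ _),
    abs_lt.mpr (⟨by linarith, by linarith⟩ : -(ε / 2 * N) < z.im ∧ z.im < ε / 2 * N)]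

theorem ex_blk {α β ξ : ℝ} (hα : 1 < |α|) (hβ : 1 < |β|) (h1 : UD fun n => ξ * α ^ n)
    (h2 : ¬ UD fun n => ξ * β ^ n) :
    ∃ (h0 : ℕ) (ω : ℂ) (c : ℝ), 1 ≤ h0 ∧ ‖ω‖ = 1 ∧ 0 < c ∧ Blk α β h0 ω c := by
  have la := log_pos hα
  have lb := log_pos hβ
  have hM : ∀ {τ : ℝ} {M : ℕ}, 7 < τ ^ M → (0 : ℝ) < M := fun h => by
    exact_mod_cast Nat.pos_of_ne_zero fun e => by rw [e, pow_zero] at h; linarith
  by_cases hθ : Irrational (log |α| / log |β|)
  · obtain ⟨M, hB⟩ := pow_unbounded_of_one_lt 7 hβ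
    have := hM hB
    refine ⟨1, 1, _, le_rfl, by simp, by positivity, blk (ξ := 0) (c0 := 1) (c1 := 0) hα hβ hβ hB.le
      (pow_one _).symm le_rfl (by simp) one_pos (Frequently.of_forall fun N => by simp [ee_zero])
      (HA_irr hβ hB.le hα ?_ 0) fun σ _ => ⟨_, _, 0, by simp, by simp, le_rfl, le_rfl, le_rfl, le_rfl⟩⟩
    rw [log_pow, mul_comm, ← div_div]
    exact hθ.div_natCast (by exact_mod_cast this.ne')
  obtain ⟨q, hq⟩ := not_not.mp hθ
  have q0 : 0 < q := by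
    have : (0 : ℝ) < q := hq ▸ div_pos la lb
    exact_mod_cast this
  obtain ⟨i, hi⟩ := Int.eq_ofNat_of_zero_le (Rat.num_pos.mpr q0).le
  have i0 : 0 < i := by have := Rat.num_pos.mpr q0; omega
  have j0 := q.den_pos
  rw [Rat.cast_def, hi, Int.cast_natCast] at hq
  generalize q.den = j at hq j0
  have j1 : (0 : ℝ) < j := by exact_mod_cast j0
  have i1 : (0 : ℝ) < i := by exact_mod_cast i0
  rw [div_eq_div_iff j1.ne' lb.ne'] at hq
  have hτ : 1 < exp (log |β| / j) := one_lt_exp_iff.mpr (by positivity)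
  have e1 : |α| = exp (log |β| / j) ^ i := by
    rw [← exp_nat_mul, ← mul_div_assoc, hq, mul_div_cancel_right₀ _ j1.ne', exp_log (by linarith)]
  have e2 : |β| = exp (log |β| / j) ^ j := by
    rw [← exp_nat_mul, mul_div_cancel₀ _ j1.ne', exp_log (by linarith)]
  have e3 : α ^ (2 * j) = β ^ (2 * i) := by
    rw [pow_mul, pow_mul, ← sq_abs α, ← sq_abs β]
    generalize exp (log |β| / j) = τ at e1 e2
    rw [e1, e2]
    ring
  obtain ⟨M, hB⟩ := pow_unbounded_of_one_lt 7 hτ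
  have := hM hB
  obtain ⟨h0, ω, c, a1, a2, a3, a4⟩ := biasd h2
  refine ⟨h0, ω, _, a1, a2, by positivity, blk (c1 := 2 * j + 2 * i) hα hβ hτ hB.le e2 a1 a2 a3 a4
    (HA_rat hτ hB.le e1 a1 h1) fun σ hσ => ?_⟩
  have b1 := Nat.le_ceil (σ / (2 * j * log |α|))
  have b2 := Nat.ceil_lt_add_one (a := σ / (2 * j * log |α|)) (by positivity)
  generalize ⌈σ / (2 * j * log |α|)⌉₊ = n at b1 b2
  have key : ∀ {ζ : ℝ} {a : ℕ}, 1 < |ζ| → 0 < a → 2 * j * log |α| = 2 * a * log |ζ| →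
      io ζ σ ≤ 2 * a * n ∧ 2 * a * n ≤ io ζ σ + 2 * a := by
    intro ζ a z1 z2 z3
    have z4 := log_pos z1
    have z5 : (0 : ℝ) < a := by exact_mod_cast z2
    rw [z3, mul_comm, ← div_div] at b1 b2
    rw [div_le_iff₀ (by positivity)] at b1
    rw [div_add_one (by positivity), lt_div_iff₀ (by positivity)] at b2
    refine ⟨Nat.ceil_le.mpr (by push_cast; linarith), ?_⟩
    have : ((2 * a * n : ℕ) : ℝ) ≤ (io ζ σ + 2 * a : ℕ) := by
      push_cast
      linarith [io_ge ζ σ]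
    exact_mod_cast this
  obtain ⟨c1, c2⟩ := key hα j0 rfl
  obtain ⟨c3, c4⟩ := key hβ i0 (by linarith)
  have a0 : α ≠ 0 := abs_pos.mp (by linarith)
  refine ⟨2 * j * n, 2 * i * n, ξ / α ^ (2 * j * n), div_mul_cancel₀ _ (pow_ne_zero _ a0), ?_,
    c1, by omega, c3, by omega⟩
  rw [pow_mul β, ← e3, ← pow_mul, div_mul_cancel₀ _ (pow_ne_zero _ a0)]

theorem both {α β ξ : ℝ} (hα : 1 < |α|) (hβ : 1 < |β|) (h1 : UD fun n => ξ * α ^ n)
    (h2 : ¬ UD fun n => ξ * β ^ n) (G : Bool → ℕ → ℕ → Set (ℕ → ℕ)) (hG : ∀ e i j, IsClosed (G e i j)) :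
    ∃ f : (ℕ → ℕ) → ℝ, Continuous f ∧ ∀ y,
      y ∈ (⋂ i, ⋃ j, G true i j) \ (⋂ i, ⋃ j, G false i j) ↔
        (UD fun n => f y * α ^ n) ∧ ¬ UD fun n => f y * β ^ n := by
  obtain ⟨h0, ω, c, a1, a2, a3, a4⟩ := ex_blk hα hβ h1 h2
  obtain ⟨m0, l0, r0⟩ := red (G true) (hG true)
  obtain ⟨m1, l1, r1⟩ := red (G false) (hG false)
  obtain ⟨f, f1, f2⟩ := main2 hα hβ a1 a2 a3 a4 m0 m1 l0 l1
  refine ⟨f, f1, fun y => ?_⟩
  rw [Set.mem_diff, r0, r1, (f2 y).1]
  exact and_congr_right fun h => ((f2 y).2 h).not.symm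

end Pool.Agent.H.MP_3974fb_lc
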